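import Pool.Agent.H98.AL.Cdf

/-!
# [H98 AL CNV] From the model at infinity back to the polynomials in `x, y`

PROOF. `K := FractionRing P2`, `ι = algebraMap P2 K` (injective), `x = ι (X 0) ≠ 0`, `y = ι (X 1)`, `u = x⁻¹`. `χ : ℤ[X][X] →+* K` with `χ (C X) = u`, `χ X = g * y * u`,
integers to integers: `χ := eval₂RingHom (eval₂RingHom (Int.castRingHom K) u) (g * y * u)`.
(1) LEMMA. For every `w : ℤ[X][X]` there is `D` such that for all `s ≥ D` there is `W : P2` with `ι W = x^s * χ w` and `W.totalDegree ≤ s`. (`Polynomial.induction_on'` twice: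
sums: `max D D'`, `totalDegree_add`; a monomial `C (C a * X^i) * X^j`: `D = i + j`, `W = C (a * g^j) * X 0^(s-i-j) * X 1^j`.)
(2) By `hrel` and `fI_eval` (`Pool/Agent/H34/AC/Inf1.lean`; `φ = eval₂RingHom (Int.castRingHom K) u`, its `u` is `x`, `Z = g * y * u`, `Z * x = g * y`):
`x^n * χ (fI n F') = g^(n-1) * ι A'` where `ι A' = vl A x y`, `A' = A` (`vl_map`, `vl_self`).
(3) Choose `D` for `Φ`, for `Qh` and for `Rh`, and `s'` with `s' ≥ D_Φ`, `s' ≥ κ + 1`, `s' * E ≥ n + D_Q`, `s' * E ≥ κ * E + 1 + D_R` (`E ≥ 1`; e.g. `s' = κ + 1 + n + D_Φ + D_Q + D_R`),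
`s := s' - κ`. `N` := the polynomial for `Φ` with exponent `s'`: `ι N = x^s' χ Φ`, and `ι (C m * X 0^s) = m x^(s' - κ) = x^s' * χ (C (C m * X^κ))`. So by `hm_mul`, `hm_map`:
`ι (hm P E N (C m * X 0^s)) = x^(s' E) χ (f Qh + C (X^(κ E + 1)) Rh) = (x^n χ f) (x^(s' E - n) χ Qh) + x^(s' E - κ E - 1) χ Rh = ι A * g^(n-1) * ι Q1 + ι R` with `Q1` the
polynomial for `Qh`, exponent `s' E - n`, `R` the polynomial for `Rh`, exponent `s' E - κ E - 1 = s E - 1`, so `R.totalDegree ≤ s E - 1 < s E`. `Q := C (g^(n-1)) * Q1`.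
-/

namespace Pool.Agent.H98.AL

open Polynomial Pool.Agent.H72.ES Pool.Agent.H87.SA2 Pool.Agent.H97.XC Pool.Agent.H34.AC

/-- the map `u ↦ u`, `Z ↦ z` -/
private noncomputable def chi {K : Type} [CommRing K] (u z : K) : ℤ[X][X] →+* K :=
  eval₂RingHom (eval₂RingHom (Int.castRingHom K) u) z

private theorem chi_C {K : Type} [CommRing K] (u z : K) (p : ℤ[X]) :
    chi u z (C p) = eval₂RingHom (Int.castRingHom K) u p := by
  unfold chi
  rw [coe_eval₂RingHom, eval₂_C]

private theorem chi_X {K : Type} [CommRing K] (u z : K) : chi u z X = z := by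
  unfold chi
  rw [coe_eval₂RingHom, eval₂_X]

private theorem phi_X {K : Type} [CommRing K] (u : K) :
    eval₂RingHom (Int.castRingHom K) u X = u := by
  rw [coe_eval₂RingHom, eval₂_X]

private theorem phi_C {K : Type} [CommRing K] (u : K) (a : ℤ) :
    eval₂RingHom (Int.castRingHom K) u (C a) = (a : K) := by
  rw [coe_eval₂RingHom, eval₂_C, eq_intCast]

private theorem chi_eval {K : Type} [CommRing K] (u z : K) (w : ℤ[X][X]) :
    chi u z w = (w.map (eval₂RingHom (Int.castRingHom K) u)).eval z := by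
  unfold chi
  rw [coe_eval₂RingHom, eval_map]

/-- clearing the denominators -/
private theorem lift_poly {K : Type} [CommRing K] (ι : P2 →+* K) (u : K) (g : ℤ)
    (hxu : ι (MvPolynomial.X 0) * u = 1) (w : ℤ[X][X]) :
    ∃ D : ℕ, ∀ s, D ≤ s → ∃ W : P2,
      ι W = ι (MvPolynomial.X 0) ^ s * chi u ((g : K) * ι (MvPolynomial.X 1) * u) w ∧
        W.totalDegree ≤ s := by
  have hpow : ∀ s e : ℕ, e ≤ s → ι (MvPolynomial.X 0) ^ s * u ^ e = ι (MvPolynomial.X 0) ^ (s - e) := by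
    intro s e h
    obtain ⟨r, rfl⟩ := Nat.exists_eq_add_of_le h
    rw [Nat.add_sub_cancel_left, pow_add, mul_right_comm, ← mul_pow, hxu, one_pow, one_mul]
  induction w using Polynomial.induction_on' with
  | add p q hp hq =>
    obtain ⟨D, hD⟩ := hp
    obtain ⟨D', hD'⟩ := hq
    refine ⟨max D D', fun s hs => ?_⟩
    obtain ⟨W, h1, h2⟩ := hD s ((le_max_left _ _).trans hs)
    obtain ⟨W', h1', h2'⟩ := hD' s ((le_max_right _ _).trans hs)
    refine ⟨W + W', ?_, (MvPolynomial.totalDegree_add _ _).trans (max_le h2 h2')⟩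
    rw [map_add, map_add, h1, h1', mul_add]
  | monomial j p =>
    induction p using Polynomial.induction_on' with
    | add p q hp hq =>
      obtain ⟨D, hD⟩ := hp
      obtain ⟨D', hD'⟩ := hq
      refine ⟨max D D', fun s hs => ?_⟩
      obtain ⟨W, h1, h2⟩ := hD s ((le_max_left _ _).trans hs)
      obtain ⟨W', h1', h2'⟩ := hD' s ((le_max_right _ _).trans hs)
      refine ⟨W + W', ?_, (MvPolynomial.totalDegree_add _ _).trans (max_le h2 h2')⟩
      have hm : (monomial j) (p + q) = (monomial j) p + (monomial j) q := map_add _ _ _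
      rw [map_add, hm, map_add, h1, h1', mul_add]
    | monomial i a =>
      refine ⟨i + j, fun s hs => ?_⟩
      refine ⟨MvPolynomial.C (a * g ^ j) * (MvPolynomial.X 0 ^ (s - i - j) * MvPolynomial.X 1 ^ j), ?_, ?_⟩
      · have h0 : chi u ((g : K) * ι (MvPolynomial.X 1) * u) ((monomial j) ((monomial i) a)) =
            ((a : K) * u ^ i) * ((g : K) * ι (MvPolynomial.X 1) * u) ^ j := by
          rw [← C_mul_X_pow_eq_monomial, ← C_mul_X_pow_eq_monomial,
            map_mul (chi u ((g : K) * ι (MvPolynomial.X 1) * u)),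
            map_pow (chi u ((g : K) * ι (MvPolynomial.X 1) * u)), chi_X, chi_C,
            map_mul (eval₂RingHom (Int.castRingHom K) u),
            map_pow (eval₂RingHom (Int.castRingHom K) u), phi_X, phi_C]
        have h1 : ι (MvPolynomial.C (a * g ^ j)) = (a : K) * (g : K) ^ j := by
          have h2 : ι (MvPolynomial.C (a * g ^ j)) = (ι.comp MvPolynomial.C) (a * g ^ j) := rfl
          rw [h2, eq_intCast]
          push_cast
          rfl
        have h3 := hpow s (i + j) hs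
        rw [h0, map_mul ι (MvPolynomial.C _) _, map_mul ι (MvPolynomial.X 0 ^ (s - i - j)) _,
          map_pow ι, map_pow ι, h1, Nat.sub_sub, ← h3, pow_add, mul_pow, mul_pow]
        ring
      · refine (MvPolynomial.totalDegree_mul _ _).trans ?_
        rw [MvPolynomial.totalDegree_C, zero_add]
        refine (MvPolynomial.totalDegree_mul _ _).trans ?_
        rw [MvPolynomial.totalDegree_X_pow, MvPolynomial.totalDegree_X_pow]
        omega

theorem exists_con {A : P2} {n : ℕ} {F' : ℕ → ℕ → ℤ} {g : ℤ}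
    (hrel : ∀ (S : Type) [CommRing S] (x y : S), ev n (cst S F') x ((g : S) * y) =
      (g : S) ^ (n - 1) * Pool.Agent.H98.AL.vl A x y) {P : ℤ[X]} {E κ m : ℕ} (hE : 1 ≤ E)
    {Φ Qh Rh : ℤ[X][X]} (hid : hm P E Φ (C (C (m : ℤ) * X ^ κ)) =
      Pool.Agent.H8.AW.fI n F' * Qh + C (X ^ (κ * E + 1)) * Rh) :
    ∃ (s : ℕ) (N Q R : P2),
      hm P E N (MvPolynomial.C (m : ℤ) * MvPolynomial.X 0 ^ s : P2) = A * Q + R ∧
        R.totalDegree < s * E := by
  obtain ⟨ι, hι⟩ : ∃ ι : P2 →+* FractionRing P2, ι = algebraMap P2 (FractionRing P2) := ⟨_, rfl⟩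
  have hinj : Function.Injective ι := by
    rw [hι]
    exact IsFractionRing.injective P2 (FractionRing P2)
  obtain ⟨x, hx⟩ : ∃ x, x = ι (MvPolynomial.X 0) := ⟨_, rfl⟩
  obtain ⟨y, hy⟩ : ∃ y, y = ι (MvPolynomial.X 1) := ⟨_, rfl⟩
  have hx0 : x ≠ 0 := by
    rw [hx]
    intro h
    exact MvPolynomial.X_ne_zero 0 (hinj (by rw [h, map_zero]))
  obtain ⟨u, hu⟩ : ∃ u, u = x⁻¹ := ⟨_, rfl⟩
  have hxu : x * u = 1 := by
    rw [hu]
    exact mul_inv_cancel₀ hx0
  obtain ⟨z, hz⟩ : ∃ z : FractionRing P2, z = (g : FractionRing P2) * y * u := ⟨_, rfl⟩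
  have hl := lift_poly ι u g (by rw [← hx]; exact hxu)
  rw [← hx, ← hy, ← hz] at hl
  obtain ⟨DP, hDP⟩ := hl Φ
  obtain ⟨DQ, hDQ⟩ := hl Qh
  obtain ⟨DR, hDR⟩ := hl Rh
  -- the curve
  have hcurve : x ^ n * chi u z (Pool.Agent.H8.AW.fI n F') = (g : FractionRing P2) ^ (n - 1) * ι A := by
    have h1 := fI_eval (eval₂RingHom (Int.castRingHom (FractionRing P2)) u) n F' x u z (phi_X u) hxu
    rw [chi_eval, ← h1]
    have h2 : z * x = (g : FractionRing P2) * y := by
      rw [hz, mul_assoc, mul_comm u x, hxu, mul_one]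
    rw [h2, hrel]
    have h3 : vl A x y = ι A := by
      rw [hx, hy, ← vl_map, vl_self]
    rw [h3]
  have hpow : ∀ s e : ℕ, e ≤ s → x ^ s * u ^ e = x ^ (s - e) := by
    intro s e h
    obtain ⟨r, rfl⟩ := Nat.exists_eq_add_of_le h
    rw [Nat.add_sub_cancel_left, pow_add, mul_right_comm, ← mul_pow, hxu, one_pow, one_mul]
  obtain ⟨s, hs⟩ : ∃ s, s = 1 + n + DP + DQ + DR := ⟨_, rfl⟩
  have hsE : s ≤ s * E := Nat.le_mul_of_pos_right s hE
  have hsE' : (s + κ) * E = s * E + κ * E := add_mul _ _ _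
  obtain ⟨N, hN, -⟩ := hDP (s + κ) (by omega)
  obtain ⟨Q1, hQ1, -⟩ := hDQ ((s + κ) * E - n) (by omega)
  obtain ⟨R, hR, hR'⟩ := hDR ((s + κ) * E - (κ * E + 1)) (by omega)
  refine ⟨s, N, MvPolynomial.C (g ^ (n - 1)) * Q1, R, ?_, by omega⟩
  apply hinj
  have hCm : ι (MvPolynomial.C (m : ℤ)) = (m : FractionRing P2) := by
    have h2 : ι (MvPolynomial.C (m : ℤ)) = (ι.comp MvPolynomial.C) (m : ℤ) := rfl
    rw [h2, eq_intCast, Int.cast_natCast]
  have hCg : ι (MvPolynomial.C (g ^ (n - 1))) = (g : FractionRing P2) ^ (n - 1) := by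
    have h2 : ι (MvPolynomial.C (g ^ (n - 1))) = (ι.comp MvPolynomial.C) (g ^ (n - 1)) := rfl
    rw [h2, eq_intCast, Int.cast_pow]
  have h1 : ι (MvPolynomial.C (m : ℤ) * MvPolynomial.X 0 ^ s) =
      x ^ (s + κ) * chi u z (C (C (m : ℤ) * X ^ κ)) := by
    rw [chi_C, map_mul, map_mul, map_pow, map_pow, phi_X, phi_C, hCm, ← hx, Int.cast_natCast,
      mul_left_comm, hpow (s + κ) κ (Nat.le_add_left _ _), Nat.add_sub_cancel]
  have h2 := congrArg (chi u z) hid
  have hc : chi u z (C (X ^ (κ * E + 1))) = u ^ (κ * E + 1) := by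
    rw [chi_C, map_pow, phi_X]
  rw [hm_map, map_add, map_mul (chi u z) (Pool.Agent.H8.AW.fI n F') Qh, map_mul (chi u z) (C _) Rh,
    hc] at h2
  rw [hm_map, hN, h1, hm_mul, h2, ← pow_mul, map_add, map_mul, map_mul, hQ1, hR, hCg]
  have e1 : x ^ ((s + κ) * E) = x ^ n * x ^ ((s + κ) * E - n) := by
    rw [← pow_add]
    congr 1
    omega
  have e2 := hpow ((s + κ) * E) (κ * E + 1) (by omega)
  rw [mul_add, ← mul_assoc (x ^ ((s + κ) * E)) (u ^ (κ * E + 1)), e2]
  congr 1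
  rw [e1]
  linear_combination (x ^ ((s + κ) * E - n) * chi u z Qh) * hcurve

end Pool.Agent.H98.AL
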