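import Pool.Agent.H98.AL.Cdf

/-!
# [H98 AL INM] The condition at infinity for the model

PROOF. Copy of `inf_inf1K` in `Pool/Agent/H34/AC/Inf1.lean` (same notation): `ι = HahnSeries.ofPowerSeries ℤ K`, `t = C r * X^e`, `U = (ι t)⁻¹`,
`fI_eval (ι.comp (tQ K r e)) n F' U (ι t) (ι x) _ _ : ev n (cst _ F') U (ι x * U) = U^n * (...)= 0`. Put `Y = ι x * U * (g : _)⁻¹`, so
`g * Y = ι x * U`; by `hrel`: `g^(n-1) * vl (shf c G) U Y = 0`, so `vl (shf c G) U Y = 0`, by `vl_shf`: `vl G (U - c Y) Y = 0`. `Star q G` with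
`X = U - c * Y`: either both in `ι.range`, then `U = X + c Y` is in `ι.range`, contradiction as `t` has no constant term, or the zero of `q`.
-/

namespace Pool.Agent.H98.AL

open Polynomial Pool.Agent.H72.ES Pool.Agent.H87.SA2 Pool.Agent.H97.XC Pool.Agent.H34.AC

theorem inf_model {q : ℤ[X]} {G : P2} {c n : ℕ} {F' : ℕ → ℕ → ℤ} {g : ℤ} (hg : g ≠ 0)
    (hrel : ∀ (S : Type) [CommRing S] (x y : S), ev n (cst S F') x ((g : S) * y) =
      (g : S) ^ (n - 1) * Pool.Agent.H98.AL.vl (shf c G) x y) (h : Star q G) :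
    INFQ q (Pool.Agent.H8.AW.fI n F') := by
  intro K _ _ hreal r e x hr he hx
  obtain ⟨ι, hι⟩ : ∃ ι : PowerSeries K →+* LaurentSeries K, ι = HahnSeries.ofPowerSeries ℤ K :=
    ⟨_, rfl⟩
  have hιinj : Function.Injective ι := by
    rw [hι]
    exact HahnSeries.ofPowerSeries_injective
  obtain ⟨t, ht⟩ : ∃ t : PowerSeries K, t = PowerSeries.C r * PowerSeries.X ^ e := ⟨_, rfl⟩
  have ht0 : t ≠ 0 := by
    rw [ht]
    refine mul_ne_zero ?_ (pow_ne_zero _ PowerSeries.X_ne_zero)
    intro h0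
    exact hr (PowerSeries.C_injective (h0.trans (map_zero _).symm))
  have htc : PowerSeries.constantCoeff t = 0 := by
    rw [ht, map_mul, map_pow, PowerSeries.constantCoeff_X, zero_pow (by omega), mul_zero]
  have hιt : ι t ≠ 0 := by
    intro h0
    exact ht0 (hιinj (h0.trans (map_zero _).symm))
  obtain ⟨u, hu⟩ : ∃ u : LaurentSeries K, u = (ι t)⁻¹ := ⟨_, rfl⟩
  have hut : u * ι t = 1 := by rw [hu, inv_mul_cancel₀ hιt]
  have h1 := fI_eval (ι.comp (tQ K r e)) n F' u (ι t) (ι x)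
    (by rw [RingHom.comp_apply, tQ, coe_eval₂RingHom, eval₂_X, ht]) hut
  have h2 : ((H8.AW.fI n F').map (ι.comp (tQ K r e))).eval (ι x) = 0 := by
    rw [← Polynomial.map_map, Polynomial.eval_map, Polynomial.eval₂_at_apply, hx, map_zero]
  rw [h2, mul_zero] at h1
  have hg0 : (g : LaurentSeries K) ≠ 0 := by
    intro h0
    have h3 : ι (g : PowerSeries K) = 0 := by rw [map_intCast, h0]
    have h4 : (g : PowerSeries K) = 0 := hιinj (h3.trans (map_zero _).symm)
    have h5 := congrArg PowerSeries.constantCoeff h4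
    rw [map_intCast, map_zero] at h5
    exact hg (by exact_mod_cast h5)
  obtain ⟨Y, hY⟩ : ∃ Y : LaurentSeries K, Y = ι x * u * (g : LaurentSeries K)⁻¹ := ⟨_, rfl⟩
  have h3 : (g : LaurentSeries K) * Y = ι x * u := by
    rw [hY, mul_comm, mul_assoc, inv_mul_cancel₀ hg0, mul_one]
  have h4 := hrel (LaurentSeries K) u Y
  rw [h3, h1] at h4
  have h5 : Pool.Agent.H98.AL.vl G (u - c * Y) Y = 0 := by
    rcases mul_eq_zero.1 h4.symm with h6 | h6
    · exact absurd h6 (pow_ne_zero _ hg0)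
    · rw [vl_shf] at h6
      exact h6
  rcases h K hreal (u - c * Y) Y h5 with ⟨h6, h7⟩ | h6
  · exfalso
    rw [← hι] at h6 h7
    have h8 : u ∈ ι.range := by
      have h9 := add_mem h6 (mul_mem (natCast_mem ι.range c) h7)
      rwa [sub_add_cancel] at h9
    obtain ⟨v, hv⟩ := h8
    have h9 : v * t = 1 := by
      apply hιinj
      rw [map_mul, hv, hut, map_one]
    have h10 := congrArg PowerSeries.constantCoeff h9
    rw [map_mul, htc, mul_zero, map_one] at h10
    exact zero_ne_one h10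
  · exact h6

end Pool.Agent.H98.AL
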