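import Pool.Agent.H98.AL.Cdf

/-!
# [H98 AL INV] Invariant series come from `ℚ[[u]]`, `u = (s T)^e`

PROOF. `β := (exr AA e _).comp ((PowerSeries.rescale ((s : AA)^e)).comp (PowerSeries.map (algebraMap ℚ AA)))` (`exr` in `Pool/Agent/H87/SA2/NPD.lean`; compare `Θ`
in the proof of `kap_repK`, `Pool/Agent/H34/AC/KapB.lean`). `coeff m (β y0) = if e ∣ m then s^(e (m/e)) * coeff (m/e) y0 else 0`. Injective: clear (`s ≠ 0`).
`β.comp iq = tKq AA e s`: `Polynomial.ringHom_ext`. Surjectivity on the invariants: `y` invariant. With `σ = AlgEquiv.refl` and `ζ` a primitive `e`-th root of unity in `AA`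
(exists: `ζ = exp(2 π i / e)` is algebraic, or `HasEnoughRootsOfUnity`/`IsAlgClosed` for `AA`; `Complex.isPrimitiveRoot_exp` and the subtype `AA`): `ζ^m c_m = c_m`,
so `c_m = 0` for `e ∤ m` (`IsPrimitiveRoot.pow_eq_one_iff_dvd`). With `ζ = 1`: `σ c_m = c_m` for all `σ : AA ≃ₐ[ℚ] AA`, so `c_m ∈ ℚ`: `galA_mem ∅ c_m`
(`Pool/Agent/H87/SA2/GALA.lean`; every `σ : AA →+* ℂ` comes from an automorphism by `aa_equiv`, see the proof of `Kf_fin`) gives
`c_m ∈ IntermediateField.adjoin ℚ ∅ = ⊥`, so `c_m = algebraMap ℚ AA r_m`. `y0 := mk fun l => r_(e l) / s^(e l)`.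
-/

namespace Pool.Agent.H98.AL

open Polynomial Pool.Agent.H72.ES Pool.Agent.H87.SA2 Pool.Agent.H97.XC Pool.Agent.H34.AC

theorem exists_desc {e s : ℕ} (he : 1 ≤ e) (hs1 : 1 ≤ s) :
    ∃ β : PowerSeries ℚ →+* PowerSeries AA, Function.Injective β ∧ β.comp iq = tKq AA e s ∧
      ∀ y : PowerSeries AA, (∀ (σ : AA ≃ₐ[ℚ] AA) (ζ : AA), ζ ^ e = 1 → act σ ζ y = y) →
        ∃ y0, β y0 = y := by
  have he0 : e ≠ 0 := by omega
  have hs0 : (s : AA) ≠ 0 := by
    have h1 : s ≠ 0 := by omega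
    exact_mod_cast h1
  obtain ⟨β, hβ⟩ : ∃ β : PowerSeries ℚ →+* PowerSeries AA,
      β = (exr AA e he0).comp ((PowerSeries.rescale ((s : AA) ^ e)).comp
        (PowerSeries.map (algebraMap ℚ AA))) := ⟨_, rfl⟩
  have hc : ((s : AA) ^ e) ≠ 0 := pow_ne_zero _ hs0
  have hβc : ∀ (x : PowerSeries ℚ) (m : ℕ), PowerSeries.coeff m (β x) =
      if e ∣ m then ((s : AA) ^ e) ^ (m / e) * algebraMap ℚ AA (PowerSeries.coeff (m / e) x)
      else 0 := by
    intro x m
    rw [hβ, RingHom.comp_apply, RingHom.comp_apply, coeff_exr, PowerSeries.coeff_rescale,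
      PowerSeries.coeff_map]
  refine ⟨β, ?_, ?_, ?_⟩
  · intro x y hxy
    refine PowerSeries.ext fun m => ?_
    have h1 := congrArg (PowerSeries.coeff (e * m)) hxy
    rw [hβc, hβc, if_pos (dvd_mul_right e m), if_pos (dvd_mul_right e m),
      Nat.mul_div_cancel_left m (by omega)] at h1
    exact (algebraMap ℚ AA).injective (mul_left_cancel₀ (pow_ne_zero m hc) h1)
  · apply Polynomial.ringHom_ext
    · intro a
      simp [iq, tKq]
    · rw [RingHom.comp_apply, iq, tKq, coe_eval₂RingHom, coe_eval₂RingHom, eval₂_X, eval₂_X, hβ,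
        RingHom.comp_apply, RingHom.comp_apply, PowerSeries.map_X, PowerSeries.rescale_X, map_mul,
        exr_C, exr_X, mul_pow, map_pow]
  · intro y hy
    -- a primitive root of unity
    obtain ⟨ζ, hζ⟩ : ∃ ζ : AA, IsPrimitiveRoot ζ e := by
      have h1 := Complex.isPrimitiveRoot_exp e he0
      have h2 : Complex.exp (2 * Real.pi * Complex.I / e) ∈ AA := by
        rw [mem_algebraicClosure_iff]
        have h3 : IsIntegral ℤ (Complex.exp (2 * Real.pi * Complex.I / e)) :=
          h1.isIntegral (by omega)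
        exact (h3.tower_top (A := ℚ)).isAlgebraic
      refine ⟨⟨_, h2⟩, ?_⟩
      exact IsPrimitiveRoot.of_map_of_injective (f := algebraMap AA ℂ) h1
        (algebraMap AA ℂ).injective
    have h0 : ∀ m, ¬ e ∣ m → PowerSeries.coeff m y = 0 := by
      intro m hm
      have h1 := congrArg (PowerSeries.coeff m) (hy AlgEquiv.refl ζ hζ.pow_eq_one)
      rw [coeff_act, AlgEquiv.coe_refl, id_eq] at h1
      by_contra h2
      have h3 : ζ ^ m = 1 := mul_right_cancel₀ h2 (by rw [h1, one_mul])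
      exact hm ((hζ.pow_eq_one_iff_dvd m).1 h3)
    have h1 : ∀ m, ∃ r : ℚ, algebraMap ℚ AA r = PowerSeries.coeff m y := by
      intro m
      have h2 : ∀ τ : AA ≃ₐ[ℚ] AA, τ (PowerSeries.coeff m y) = PowerSeries.coeff m y := by
        intro τ
        have h3 := congrArg (PowerSeries.coeff m) (hy τ 1 (one_pow e))
        rwa [coeff_act, one_pow, one_mul] at h3
      have h3 := galA_mem ∅ (PowerSeries.coeff m y) (by
        intro σ _
        obtain ⟨τ, hτ⟩ := aa_equiv σ
        rw [← hτ, h2])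
      rw [IntermediateField.adjoin_empty, IntermediateField.mem_bot] at h3
      exact h3
    choose r hr using h1
    refine ⟨PowerSeries.mk fun l => r (e * l) / (s : ℚ) ^ (e * l), ?_⟩
    refine PowerSeries.ext fun m => ?_
    rw [hβc]
    split_ifs with h
    · obtain ⟨l, rfl⟩ := h
      rw [Nat.mul_div_cancel_left l (by omega), PowerSeries.coeff_mk, map_div₀, hr, map_pow,
        map_natCast, ← pow_mul, mul_div_cancel₀ _ (pow_ne_zero _ hs0)]
    · exact (h0 m h).symm

end Pool.Agent.H98.AL
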