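import Pool.Agent.H98.AL.Cdf

/-!
# [H98 AL LAG] Lagrange interpolation of the values `θ_i c'` at the branches `ξ_i`

Write `τ = tKq AA e s : ℤ[u] → AA[[T]]`.

PROOF. `β_i := (b.map τ).eval (ξ i)`, `Ψ := ∑ i, C (PowerSeries.C (θ i) * β_i) * ∏ j ∈ univ.erase i, (X - C (ξ j))`.
(1) `Ψ.eval (ξ i) = C (θ i) * β_i * ∏_{j ≠ i} (ξ i - ξ j)` (the other terms contain the factor `ξ i - ξ i`), and
`∏_{j ≠ i} (ξ i - ξ j) = (derivative (f.map τ)).eval (ξ i)` (`Polynomial.derivative_prod`, from `hs`). `hbez` mapped by `τ` and evaluated at `ξ i`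
(`(f.map τ).eval (ξ i) = 0`): `β_i * (derivative (f.map τ)).eval (ξ i) = τ c'`. So `Ψ.eval (ξ i) = τ c' * C (θ i)`.
(2) `hm P E Ψ (C (τ c'))` has the value `hm P E (τ c' * C (θ i)) (τ c') = 0` at `ξ i` (`hm_map` with the ring homomorphism `Polynomial.evalRingHom (ξ i)`, then
`hm_root`; `eval₂ (Int.castRingHom _) (PowerSeries.C (θ i)) P = PowerSeries.C (aeval (θ i) P) = 0`). The `ξ i` are distinct, so `∏ i, (X - C (ξ i))` divides it
(`Finset.prod_dvd_of_coprime` does not apply over `AA[[T]]`; use `Multiset.prod_X_sub_C_dvd_iff_le_roots` or `Polynomial.prod_multiset_X_sub_C_dvd`,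
`AA[[T]]` is a domain; or induction on a finset with `Polynomial.dvd_iff_isRoot` and `mul_eq_zero`).
(3) Invariance: let `A = (PowerSeries.rescale ζ).comp (PowerSeries.map σ)`, so `act σ ζ x = A x` and `A.comp τ = τ` (both in the proof of `act_root` in
`Pool/Agent/H34/AC/KapA.lean`). By `act_root` and injectivity there is a permutation `π` of `Fin d` with `A (ξ i) = ξ (π i)` (`A` is injective on the `ξ i`: apply
`act_symm`). Then `A β_i = β_(π i)`, `A (C (θ i)) = C (σ (θ i)) = C (θ (π i))` (`heq`), hence `Ψ.map A = Ψ` (reindex the sum by `π`,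
`Finset.sum_equiv`/`Equiv.sum_comp`, and the products by `Finset.prod_bij` or `Finset.prod_map`). Coefficients: `coeff_map`.
-/

namespace Pool.Agent.H98.AL

open Polynomial Pool.Agent.H72.ES Pool.Agent.H87.SA2 Pool.Agent.H97.XC Pool.Agent.H34.AC

/-- the ring homomorphism behind `act` -/
private noncomputable def Ah (σ : AA ≃ₐ[ℚ] AA) (ζ : AA) : PowerSeries AA →+* PowerSeries AA :=
  (PowerSeries.rescale ζ).comp (PowerSeries.map (σ : AA →+* AA))

private theorem act_eq (σ : AA ≃ₐ[ℚ] AA) (ζ : AA) (x : PowerSeries AA) :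
    act σ ζ x = Ah σ ζ x := by
  ext m
  rw [coeff_act, Ah, RingHom.comp_apply, PowerSeries.coeff_rescale, PowerSeries.coeff_map]
  rfl

private theorem Ah_tKq {e : ℕ} (q : ℕ) (σ : AA ≃ₐ[ℚ] AA) {ζ : AA} (hζ : ζ ^ e = 1) :
    (Ah σ ζ).comp (tKq AA e q) = tKq AA e q := by
  apply Polynomial.ringHom_ext
  · intro a
    simp [tKq]
  · simp only [Ah, tKq, RingHom.comp_apply, coe_eval₂RingHom, eval₂_X, map_pow, map_mul,
      PowerSeries.map_C, PowerSeries.map_X]
    rw [show ((σ : AA →+* AA) (q : AA)) = (q : AA) from map_natCast _ _, PowerSeries.rescale_X]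
    have h2 : PowerSeries.rescale ζ (PowerSeries.C (q : AA)) = PowerSeries.C (q : AA) := by
      rw [show (PowerSeries.C (q : AA)) = ((q : ℕ) : PowerSeries AA) from by simp, map_natCast]
    rw [h2, ← mul_assoc, mul_comm (PowerSeries.C (q : AA)) (PowerSeries.C ζ), mul_assoc, mul_pow,
      ← map_pow, hζ, map_one, one_mul]

private theorem Ah_C (σ : AA ≃ₐ[ℚ] AA) (ζ a : AA) :
    Ah σ ζ (PowerSeries.C a) = PowerSeries.C (σ a) := by
  ext m
  rw [← act_eq, coeff_act, PowerSeries.coeff_C, PowerSeries.coeff_C]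
  split_ifs with h
  · rw [h, pow_zero, one_mul]
  · rw [map_zero, mul_zero]

private theorem map_ev {R S : Type*} [CommRing R] [CommRing S] (A : R →+* S) (p : R[X]) (x : R) :
    A (p.eval x) = (p.map A).eval (A x) := by
  rw [eval_map, eval₂_hom]

/-- common zeros -/
private theorem prod_dvd {R : Type*} [CommRing R] [IsDomain R] {d : ℕ} {ξ : Fin d → R}
    (hinj : Function.Injective ξ) {p : R[X]} (h : ∀ i, p.eval (ξ i) = 0) (s : Finset (Fin d)) :
    ∏ i ∈ s, (X - C (ξ i)) ∣ p := by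
  classical
  induction s using Finset.induction_on with
  | empty => rw [Finset.prod_empty]; exact one_dvd p
  | insert a s ha ih =>
    obtain ⟨Q, hQ⟩ := ih
    have h1 := h a
    rw [hQ, eval_mul, eval_prod] at h1
    have h2 : ∏ i ∈ s, (X - C (ξ i)).eval (ξ a) ≠ 0 := by
      refine Finset.prod_ne_zero_iff.2 fun i hi => ?_
      rw [eval_sub, eval_X, eval_C]
      refine sub_ne_zero.2 fun h3 => ha ?_
      rw [hinj h3]
      exact hi
    have h3 := (mul_eq_zero.1 h1).resolve_left h2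
    obtain ⟨Q', hQ'⟩ := dvd_iff_isRoot.2 h3
    refine ⟨Q', ?_⟩
    rw [hQ, hQ', Finset.prod_insert ha]
    ring

private theorem erase_eval {R : Type*} [CommRing R] {d : ℕ} (ξ : Fin d → R) (i k : Fin d) :
    (∏ j ∈ Finset.univ.erase k, (X - C (ξ j))).eval (ξ i) =
      if k = i then ∏ j ∈ Finset.univ.erase i, (ξ i - ξ j) else 0 := by
  classical
  rw [eval_prod]
  split_ifs with h
  · rw [h]
    refine Finset.prod_congr rfl fun j _ => ?_
    rw [eval_sub, eval_X, eval_C]
  · refine Finset.prod_eq_zero (Finset.mem_erase.2 ⟨fun h1 => h h1.symm, Finset.mem_univ i⟩) ?_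
    rw [eval_sub, eval_X, eval_C, sub_self]

private theorem der_eval {R : Type*} [CommRing R] {d : ℕ} (ξ : Fin d → R) (i : Fin d) :
    (derivative (∏ i, (X - C (ξ i)))).eval (ξ i) = ∏ j ∈ Finset.univ.erase i, (ξ i - ξ j) := by
  classical
  rw [derivative_prod_finset, eval_finsetSum, Finset.sum_eq_single i]
  · rw [derivative_sub, derivative_X, derivative_C, sub_zero, mul_one, erase_eval, if_pos rfl]
  · intro k _ hk
    rw [derivative_sub, derivative_X, derivative_C, sub_zero, mul_one, erase_eval, if_neg hk]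
  · intro h
    exact absurd (Finset.mem_univ i) h

theorem exists_psi {f : ℤ[X][X]} {d e s : ℕ} (he : 1 ≤ e) {ξ : Fin d → PowerSeries AA}
    (hs : f.map (tKq AA e s) = ∏ i, (X - C (ξ i))) (hinj : Function.Injective ξ)
    {a b : ℤ[X][X]} {c' : ℤ[X]} (hbez : a * f + b * derivative f = C c') {P : ℤ[X]} {E : ℕ}
    (hE : P.natDegree ≤ E) {θ : Fin d → AA} (hθ : ∀ i, aeval (θ i) P = 0)
    (heq : ∀ (σ : AA ≃ₐ[ℚ] AA) (ζ : AA) (i j : Fin d), ζ ^ e = 1 → act σ ζ (ξ i) = ξ j →
      σ (θ i) = θ j) :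
    ∃ Ψ Q : (PowerSeries AA)[X],
      hm P E Ψ (C (tKq AA e s c')) = f.map (tKq AA e s) * Q ∧
      ∀ (σ : AA ≃ₐ[ℚ] AA) (ζ : AA), ζ ^ e = 1 → ∀ l, act σ ζ (Ψ.coeff l) = Ψ.coeff l := by
  classical
  obtain ⟨β, hβ⟩ : ∃ β : Fin d → PowerSeries AA, ∀ i, β i = (b.map (tKq AA e s)).eval (ξ i) :=
    ⟨_, fun _ => rfl⟩
  obtain ⟨Ψ, hΨ⟩ : ∃ Ψ : (PowerSeries AA)[X], Ψ = ∑ i, C (PowerSeries.C (θ i) * β i) *
    ∏ j ∈ Finset.univ.erase i, (X - C (ξ j)) := ⟨_, rfl⟩
  have hroot : ∀ i, (f.map (tKq AA e s)).eval (ξ i) = 0 := by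
    intro i
    rw [hs, eval_prod]
    refine Finset.prod_eq_zero (Finset.mem_univ i) ?_
    rw [eval_sub, eval_X, eval_C, sub_self]
  -- the Bezout identity
  have hβd : ∀ i, β i * ∏ j ∈ Finset.univ.erase i, (ξ i - ξ j) = tKq AA e s c' := by
    intro i
    have h1 := congrArg (fun p => (Polynomial.map (tKq AA e s) p).eval (ξ i)) hbez
    simp only [Polynomial.map_add, Polynomial.map_mul, Polynomial.map_C, eval_add, eval_mul,
      eval_C] at h1
    rw [hroot, mul_zero, zero_add, ← hβ, ← derivative_map, hs, der_eval] at h1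
    exact h1
  have hev : ∀ i, Ψ.eval (ξ i) = tKq AA e s c' * PowerSeries.C (θ i) := by
    intro i
    rw [hΨ, eval_finsetSum, Finset.sum_eq_single i]
    · rw [eval_mul, eval_C, erase_eval, if_pos rfl, mul_assoc, hβd, mul_comm]
    · intro k _ hk
      rw [eval_mul, erase_eval, if_neg hk, mul_zero]
    · intro h
      exact absurd (Finset.mem_univ i) h
  have hz : ∀ i, (hm P E Ψ (C (tKq AA e s c'))).eval (ξ i) = 0 := by
    intro i
    have h1 := hm_map (evalRingHom (ξ i)) P E Ψ (C (tKq AA e s c'))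
    rw [coe_evalRingHom, hev, eval_C] at h1
    rw [h1]
    apply hm_root hE
    have h2 := hom_eval₂ P (algebraMap ℤ AA) (PowerSeries.C : AA →+* PowerSeries AA) (θ i)
    have h3 : (PowerSeries.C : AA →+* PowerSeries AA).comp (algebraMap ℤ AA) =
        Int.castRingHom (PowerSeries AA) := RingHom.ext_int _ _
    rw [h3] at h2
    rw [← h2, ← aeval_def, hθ, map_zero]
  obtain ⟨Q, hQ⟩ := prod_dvd hinj hz Finset.univ
  refine ⟨Ψ, Q, by rw [hs]; exact hQ, ?_⟩
  intro σ ζ hζ l
  have hζ0 : ζ ≠ 0 := by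
    intro h0
    rw [h0, zero_pow (by omega)] at hζ
    exact zero_ne_one hζ
  -- the permutation
  choose π hπ using act_root hs σ ζ hζ
  have hπi : Function.Injective π := by
    intro i j hij
    apply hinj
    have h1 := act_symm hζ0 (hπ i)
    have h2 := act_symm hζ0 (hπ j)
    rw [← h1, ← h2, hij]
  have hπb : Function.Bijective π := Finite.injective_iff_bijective.1 hπi
  have hπ' : ∀ i, Ah σ ζ (ξ i) = ξ (π i) := fun i => by rw [← act_eq, hπ]
  have hβ' : ∀ i, Ah σ ζ (β i) = β (π i) := by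
    intro i
    rw [hβ, map_ev, Polynomial.map_map, Ah_tKq s σ hζ, hπ', hβ]
  have hθ' : ∀ i, Ah σ ζ (PowerSeries.C (θ i)) = PowerSeries.C (θ (π i)) := by
    intro i
    rw [Ah_C, heq σ ζ i (π i) hζ (hπ i)]
  have hΨ' : Ψ.map (Ah σ ζ) = Ψ := by
    rw [hΨ, Polynomial.map_sum]
    rw [← Equiv.sum_comp (Equiv.ofBijective π hπb) (fun i => C (PowerSeries.C (θ i) * β i) *
      ∏ j ∈ Finset.univ.erase i, (X - C (ξ j)))]
    refine Finset.sum_congr rfl fun i _ => ?_
    rw [Polynomial.map_mul, Polynomial.map_C, map_mul, hθ', hβ', Polynomial.map_prod,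
      Equiv.ofBijective_apply]
    congr 1
    refine Finset.prod_bij (fun j _ => π j) ?_ ?_ ?_ ?_
    · intro j hj
      rw [Finset.mem_erase] at hj ⊢
      exact ⟨fun h => hj.1 (hπi h), Finset.mem_univ _⟩
    · intro j _ k _ h
      exact hπi h
    · intro j hj
      obtain ⟨k, hk⟩ := hπb.2 j
      refine ⟨k, ?_, hk⟩
      rw [Finset.mem_erase] at hj ⊢
      refine ⟨fun h => hj.1 ?_, Finset.mem_univ _⟩
      rw [← hk, h]
    · intro j _
      rw [Polynomial.map_sub, Polynomial.map_X, Polynomial.map_C, hπ']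
  have h1 := congrArg (fun p => Polynomial.coeff p l) hΨ'
  simp only [Polynomial.coeff_map] at h1
  rw [act_eq]
  exact h1

end Pool.Agent.H98.AL
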