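import Pool.Agent.H98.AL.Cdf
import Pool.Agent.H34.AC.Irr
import Pool.Agent.H34.AC.Sqf

/-!
# [H98 AL MDL] The monic model at infinity

`n = A.totalDegree`, `g` the coefficient of `y^n`; `F'` is the array of `g^(n-1) A(x, y / g)`.

PROOF. `F' i j := if j < n ∧ i + j ≤ n then g^(n - 1 - j) * A_{ij} else if j = n ∧ i = 0 then 1 else 0` where
`A_{ij} = MvPolynomial.coeff (Finsupp.single 0 i + Finsupp.single 1 j) A` (or any other way to write the exponent vector). The identity with `ev`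
(`Pool/Agent/H72/ES/Defs.lean`: `ev n c x y = ∑ i ∈ range (n+1), ∑ j ∈ range (n+1-i), c i j * x^i * y^j`): expand `vl A x y` by `vl_sum` to the sum
over all `i + j ≤ n` (the exponents in the support have `t 0 + t 1 ≤ n`); for `j < n`: `g^(n-1-j) g^j = g^(n-1)`; for `j = n` (then `i = 0`):
`1 * g^n = g^(n-1) * g`. Irreducible: copy `Ft_irr` in `Pool/Agent/H34/AC/Irr.lean` (`FQ_ev`, an isomorphism
`MvPolynomial (Fin 2) ℚ ≃+* ℚ[X][X]` with `x ↦ C X`, `y ↦ C (C g⁻¹) * X`, then `FQ n F' = g^(n-1) * Φ (map A)` and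
`irreducible_isUnit_mul`, `MulEquiv.irreducible_iff`).
-/

namespace Pool.Agent.H98.AL

open Polynomial Pool.Agent.H72.ES Pool.Agent.H87.SA2 Pool.Agent.H97.XC Pool.Agent.H34.AC

private theorem vl_tri {A : P2} {S : Type} [CommRing S] (x y : S) :
    Pool.Agent.H98.AL.vl A x y = ∑ i ∈ Finset.range (A.totalDegree + 1),
      ∑ j ∈ Finset.range (A.totalDegree + 1 - i),
        ((MvPolynomial.coeff (Finsupp.single 0 i + Finsupp.single 1 j) A : ℤ) : S) *
          (x ^ i * y ^ j) := by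
  classical
  rw [Finset.sum_sigma', vl_sum]
  obtain ⟨φ, hφ⟩ : ∃ φ : (Σ _ : ℕ, ℕ) → (Fin 2 →₀ ℕ),
      ∀ p, φ p = Finsupp.single 0 p.1 + Finsupp.single 1 p.2 := ⟨_, fun _ => rfl⟩
  have h0 : ∀ p, φ p 0 = p.1 := by
    intro p
    rw [hφ, Finsupp.add_apply, Finsupp.single_eq_same, Finsupp.single_eq_of_ne (by decide), add_zero]
  have h1 : ∀ p, φ p 1 = p.2 := by
    intro p
    rw [hφ, Finsupp.add_apply, Finsupp.single_eq_same, Finsupp.single_eq_of_ne (by decide), zero_add]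
  have hinj : Function.Injective φ := by
    rintro ⟨i, j⟩ ⟨i', j'⟩ h
    have h2 := h0 ⟨i, j⟩
    have h3 := h1 ⟨i, j⟩
    rw [h, h0] at h2
    rw [h, h1] at h3
    simp only at h2 h3
    rw [h2, h3]
  obtain ⟨R, hR⟩ : ∃ R : Finset (Σ _ : ℕ, ℕ), R = (Finset.range (A.totalDegree + 1)).sigma
      (fun i => Finset.range (A.totalDegree + 1 - i)) := ⟨_, rfl⟩
  have hsub : A.support ⊆ R.image φ := by
    intro t ht
    have h2 := two_mem le_rfl ht
    rw [Finset.mem_image]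
    refine ⟨⟨t 0, t 1⟩, ?_, ?_⟩
    · rw [hR, Finset.mem_sigma, Finset.mem_range, Finset.mem_range]
      simp only
      omega
    · exact two_ext (h0 _) (h1 _)
  rw [Finset.sum_subset hsub (fun t _ ht => by
    rw [MvPolynomial.notMem_support_iff.1 ht, Int.cast_zero, zero_mul]),
    Finset.sum_image (fun a _ b _ h => hinj h), ← hR]
  refine Finset.sum_congr rfl fun p _ => ?_
  rw [h0, h1, hφ]

private theorem exists_iso' (a : ℚ) (ha : a ≠ 0) :
    ∃ Φ : MvPolynomial (Fin 2) ℚ ≃+* ℚ[X][X],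
      Φ (MvPolynomial.X 0) = C X ∧ Φ (MvPolynomial.X 1) = C (C a⁻¹) * X := by
  obtain ⟨f, hf⟩ : ∃ f : MvPolynomial (Fin 2) ℚ →+* ℚ[X][X],
      f = MvPolynomial.eval₂Hom ((C : ℚ[X] →+* ℚ[X][X]).comp (C : ℚ →+* ℚ[X]))
        ![C X, C (C a⁻¹) * X] := ⟨_, rfl⟩
  obtain ⟨g0, hg0⟩ : ∃ g0 : ℚ[X] →+* MvPolynomial (Fin 2) ℚ,
      g0 = eval₂RingHom MvPolynomial.C (MvPolynomial.X 0) := ⟨_, rfl⟩
  obtain ⟨g, hg⟩ : ∃ g : ℚ[X][X] →+* MvPolynomial (Fin 2) ℚ,
      g = eval₂RingHom g0 (MvPolynomial.C a * MvPolynomial.X 1) := ⟨_, rfl⟩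
  have hf0 : f (MvPolynomial.X 0) = C X := by
    rw [hf, MvPolynomial.coe_eval₂Hom, MvPolynomial.eval₂_X]
    rfl
  have hf1 : f (MvPolynomial.X 1) = C (C a⁻¹) * X := by
    rw [hf, MvPolynomial.coe_eval₂Hom, MvPolynomial.eval₂_X]
    rfl
  have hfC : ∀ r, f (MvPolynomial.C r) = C (C r) := by
    intro r
    rw [hf, MvPolynomial.coe_eval₂Hom, MvPolynomial.eval₂_C]
    rfl
  have hgX : g X = MvPolynomial.C a * MvPolynomial.X 1 := by
    rw [hg, coe_eval₂RingHom, eval₂_X]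
  have hgCX : g (C X) = MvPolynomial.X 0 := by
    rw [hg, coe_eval₂RingHom, eval₂_C, hg0, coe_eval₂RingHom, eval₂_X]
  have hgCC : ∀ r, g (C (C r)) = MvPolynomial.C r := by
    intro r
    rw [hg, coe_eval₂RingHom, eval₂_C, hg0, coe_eval₂RingHom, eval₂_C]
  have h1 : f.comp g = RingHom.id _ := by
    refine Polynomial.ringHom_ext' ?_ ?_
    · refine Polynomial.ringHom_ext ?_ ?_
      · intro r
        rw [RingHom.comp_apply, RingHom.comp_apply, hgCC, hfC]
        rfl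
      · rw [RingHom.comp_apply, RingHom.comp_apply, hgCX, hf0]
        rfl
    · rw [RingHom.comp_apply, hgX, map_mul, hf1, hfC, ← mul_assoc, ← C_mul, ← C_mul,
        mul_inv_cancel₀ ha, C_1, C_1, one_mul]
      rfl
  have h2 : g.comp f = RingHom.id _ := by
    refine MvPolynomial.ringHom_ext ?_ ?_
    · intro r
      rw [RingHom.comp_apply, hfC, hgCC]
      rfl
    · have h3 : g (C (C a⁻¹) * X) = MvPolynomial.X 1 := by
        rw [map_mul, hgCC, hgX, ← mul_assoc, ← MvPolynomial.C_mul, inv_mul_cancel₀ ha,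
          MvPolynomial.C_1, one_mul]
      intro i
      fin_cases i
      · change g (f (MvPolynomial.X 0)) = MvPolynomial.X 0
        rw [hf0, hgCX]
      · change g (f (MvPolynomial.X 1)) = MvPolynomial.X 1
        rw [hf1, h3]
  exact ⟨RingEquiv.ofRingHom f g h1 h2, hf0, hf1⟩

theorem exists_md {A : P2} (h1 : 1 ≤ A.totalDegree) {g : ℤ}
    (hg : MvPolynomial.coeff (Finsupp.single 1 A.totalDegree) A = g) (hg0 : g ≠ 0)
    (hirr : Irreducible (MvPolynomial.map (Int.castRingHom ℚ) A)) :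
    ∃ F' : ℕ → ℕ → ℤ, F' 0 A.totalDegree = 1 ∧
      Irreducible (Pool.Agent.H8.AW.FQ A.totalDegree F') ∧
      ∀ (S : Type) [CommRing S] (x y : S),
        ev A.totalDegree (cst S F') x ((g : S) * y) = (g : S) ^ (A.totalDegree - 1) *
          Pool.Agent.H98.AL.vl A x y := by
  obtain ⟨n, hn⟩ : ∃ n : ℕ, A.totalDegree = n := ⟨_, rfl⟩
  obtain ⟨F', hF'⟩ : ∃ F' : ℕ → ℕ → ℤ, ∀ i j, F' i j = if j < n then
      g ^ (n - 1 - j) * MvPolynomial.coeff (Finsupp.single 0 i + Finsupp.single 1 j) A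
      else if i = 0 then 1 else 0 := ⟨_, fun _ _ => rfl⟩
  have hid : ∀ (S : Type) [CommRing S] (x y : S),
      ev n (cst S F') x ((g : S) * y) = (g : S) ^ (n - 1) * Pool.Agent.H98.AL.vl A x y := by
    intro S _ x y
    rw [vl_tri, hn, ev, Finset.mul_sum]
    refine Finset.sum_congr rfl fun i hi => ?_
    rw [Finset.mul_sum]
    refine Finset.sum_congr rfl fun j hj => ?_
    rw [Finset.mem_range] at hi hj
    rw [cst, hF']
    by_cases hjn : j < n
    · rw [if_pos hjn, Int.cast_mul, Int.cast_pow, mul_pow]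
      have h2 : (g : S) ^ (n - 1) = (g : S) ^ (n - 1 - j) * (g : S) ^ j := by
        rw [← pow_add]
        congr 1
        omega
      rw [h2]
      ring
    · have hj' : j = n := by omega
      have hi' : i = 0 := by omega
      subst hj'
      subst hi'
      rw [if_neg hjn, if_pos rfl, Finsupp.single_zero, zero_add, ← hn, hg, hn, mul_pow]
      have h2 : (g : S) ^ j = (g : S) ^ (j - 1) * (g : S) := by
        rw [← pow_succ]
        congr 1
        omega
      rw [h2]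
      push_cast
      ring
  rw [hn]
  refine ⟨F', ?_, ?_, fun S _ x y => hid S x y⟩
  · rw [hF', if_neg (lt_irrefl _), if_pos rfl]
  · have hgQ : (g : ℚ) ≠ 0 := by exact_mod_cast hg0
    obtain ⟨Φ, h0, h1⟩ := exists_iso' (g : ℚ) hgQ
    have h2 : Φ (MvPolynomial.map (Int.castRingHom ℚ) A) =
        Pool.Agent.H98.AL.vl A (C X : ℚ[X][X]) (C (C (g : ℚ)⁻¹) * X) := by
      have h3 := vl_map (Φ : MvPolynomial (Fin 2) ℚ →+* ℚ[X][X]) A (MvPolynomial.X 0)
        (MvPolynomial.X 1)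
      rw [RingHom.coe_coe] at h3
      have h4 : MvPolynomial.map (Int.castRingHom ℚ) A =
          Pool.Agent.H98.AL.vl A (MvPolynomial.X 0 : MvPolynomial (Fin 2) ℚ) (MvPolynomial.X 1) := by
        have h5 : (MvPolynomial.map (Int.castRingHom ℚ) : MvPolynomial (Fin 2) ℤ →+* _) =
            MvPolynomial.eval₂Hom (Int.castRingHom (MvPolynomial (Fin 2) ℚ))
              ![MvPolynomial.X 0, MvPolynomial.X 1] := by
          refine MvPolynomial.ringHom_ext (fun r => ?_) (fun i => ?_)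
          · simp
          · rw [MvPolynomial.map_X, MvPolynomial.coe_eval₂Hom, MvPolynomial.eval₂_X]
            fin_cases i <;> rfl
        rw [h5]
        rfl
      rw [h4, h3, h0, h1]
    have h3 : H8.AW.FQ n F' =
        ((g : ℤ) : ℚ[X][X]) ^ (n - 1) * Φ (MvPolynomial.map (Int.castRingHom ℚ) A) := by
      rw [h2, ← hid, FQ_ev]
      congr 1
      rw [show ((g : ℤ) : ℚ[X][X]) = C (C (g : ℚ)) from by simp, ← mul_assoc, ← C_mul, ← C_mul,
        mul_inv_cancel₀ hgQ, C_1, C_1, one_mul]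
    rw [h3]
    have h4 : IsUnit (((g : ℤ) : ℚ[X][X]) ^ (n - 1)) := by
      apply IsUnit.pow
      rw [show ((g : ℤ) : ℚ[X][X]) = C (C (g : ℚ)) from by simp]
      exact (isUnit_iff_ne_zero.2 hgQ).map (C.comp C)
    rw [irreducible_isUnit_mul h4, MulEquiv.irreducible_iff]
    exact hirr

end Pool.Agent.H98.AL
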