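import Pool.Agent.H98.AL.KFR

/-!
# [H98 AL THE] The equivariant values `θ_i`

PROOF. As `exists_kapR` in `Pool/Agent/H34/AC/KapR.lean`. For each `i` let `K_i = Kf e (ξ i)`, a number field (`Kf_fin`).
(1) If `K_i` has a real embedding: by `kf_root` and `hinf` there is `θ ∈ K_i` with `q(θ) = 0`. (2) If `K_i` has no real embedding: let `θ` be a primitive
element (`Field.exists_primitive_element ℚ K_i`), `μ ∈ ℤ[T]` a non-zero integer multiple of its minimal polynomial over `ℚ`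
(`IsLocalization.integerNormalization` or `minpoly.toIntegral..`; any `μ ∈ ℤ[T]` with `map μ = b * minpoly`, `b ≠ 0`): `μ(θ) = 0`, and `μ` has no real zero:
a real zero `r` of `minpoly ℚ θ` gives `K_i = ℚ⟮θ⟯ →ₐ[ℚ] ℝ` (`IntermediateField.algHomAdjoinIntegralEquiv`, or `PowerBasis.lift`).
So for every `i` there are `θ0_i ∈ K_i ⊆ AA` and `μ_i ∈ ℤ[T]` without real zero with `q(θ0_i) μ_i(θ0_i) = 0` (take `μ_i = 1` in case (1)).
(3) The relation `i ~ j :⟺ ∃ σ ζ, ζ^e = 1 ∧ act σ ζ (ξ i) = ξ j` is an equivalence relation (see `exists_kapR`); choose a representative `rep i` of every class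
and `s i, z i` with `act (s i) (z i) (ξ (rep i)) = ξ i`; `θ_i := s i (θ0_(rep i))`, `p := ∏_i μ_i`. `θ_i` is a zero of `q p` because `s i` is an automorphism over
`ℚ`. Equivariance: if `act σ ζ (ξ i) = ξ j` then `rep i = rep j`, `(s j)⁻¹ ∘ σ ∘ s i` with the corresponding root of unity stabilises `ξ (rep i)`, so it
fixes `θ0_(rep i) ∈ Kf e (ξ (rep i))` (proof of `hmain` in `exists_kapR`).
-/

namespace Pool.Agent.H98.AL

open Polynomial Pool.Agent.H72.ES Pool.Agent.H87.SA2 Pool.Agent.H97.XC Pool.Agent.H34.AC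

/-- a number field without real embedding: a primitive element and a polynomial without real zero -/
private theorem no_real {K : Type} [Field K] [NumberField K] (h : ¬ Nonempty (K →+* ℝ)) :
    ∃ (θ : K) (μ : ℤ[X]), (∀ r : ℝ, aeval r μ ≠ 0) ∧ aeval θ μ = 0 := by
  obtain ⟨θ, hθ⟩ := Field.exists_primitive_element ℚ K
  have hint : IsIntegral ℚ θ := Algebra.IsIntegral.isIntegral θ
  obtain ⟨b, hbm, hb⟩ := IsLocalization.integerNormalization_spec (nonZeroDivisors ℤ)
    (minpoly ℚ θ)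
  have hb0 : (b : ℚ) ≠ 0 := by
    exact_mod_cast nonZeroDivisors.ne_zero hbm
  refine ⟨θ, IsLocalization.integerNormalization (nonZeroDivisors ℤ) (minpoly ℚ θ), ?_, ?_⟩
  · intro r hr
    have h1 : aeval r (minpoly ℚ θ) = 0 := by
      have h2 := congrArg (aeval r) hb
      rw [aeval_map_algebraMap, hr] at h2
      have h3 : (b • minpoly ℚ θ : ℚ[X]) = C (b : ℚ) * minpoly ℚ θ := by
        rw [zsmul_eq_mul]
        simp
      rw [h3, map_mul, aeval_C] at h2
      have h4 : algebraMap ℚ ℝ (b : ℚ) ≠ 0 := by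
        rw [Ne, map_eq_zero]
        exact hb0
      exact (mul_eq_zero.1 h2.symm).resolve_left h4
    apply h
    have h5 : r ∈ (minpoly ℚ θ).aroots ℝ := by
      rw [mem_aroots]
      exact ⟨minpoly.ne_zero hint, h1⟩
    obtain ⟨g⟩ : Nonempty (IntermediateField.adjoin ℚ {θ} →ₐ[ℚ] ℝ) :=
      ⟨(IntermediateField.algHomAdjoinIntegralEquiv ℚ hint).symm ⟨r, h5⟩⟩
    have h6 : ∀ a : K, a ∈ IntermediateField.adjoin ℚ {θ} := by
      intro a
      rw [hθ]
      exact IntermediateField.mem_top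
    exact ⟨g.toRingHom.comp ((RingHom.id K).codRestrict
      (IntermediateField.adjoin ℚ {θ}).toSubfield.toSubring h6)⟩
  · exact IsLocalization.integerNormalization_aeval_eq_zero (nonZeroDivisors ℤ) _
      (minpoly.aeval ℚ θ)

/-- values of polynomials in a subfield -/
private theorem aeval_coe {K : IntermediateField ℚ AA} (z : K) (q : ℤ[X]) :
    aeval (z : AA) q = ((aeval z q : K) : AA) := by
  have h := hom_eval₂ q (Int.castRingHom K) (algebraMap K AA) z
  have h1 : (algebraMap K AA).comp (Int.castRingHom K) = algebraMap ℤ AA := RingHom.ext_int _ _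
  have h2 : (Int.castRingHom K) = algebraMap ℤ K := RingHom.ext_int _ _
  rw [h1] at h
  rw [aeval_def, aeval_def, ← h2]
  exact h.symm

private theorem aeval_aut (σ : AA ≃ₐ[ℚ] AA) (z : AA) (q : ℤ[X]) :
    aeval (σ z) q = σ (aeval z q) := by
  have h := hom_eval₂ q (algebraMap ℤ AA) (σ : AA →+* AA) z
  have h1 : (σ : AA →+* AA).comp (algebraMap ℤ AA) = algebraMap ℤ AA := RingHom.ext_int _ _
  rw [h1] at h
  rw [aeval_def, aeval_def]
  exact h.symm

theorem exists_theta {f : ℤ[X][X]} {q : ℤ[X]} (hinf : INFQ q f) {d e s : ℕ} (he : 1 ≤ e)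
    (hs1 : 1 ≤ s) {ξ : Fin d → PowerSeries AA}
    (hs : f.map (tKq AA e s) = ∏ i, (X - C (ξ i))) (hinj : Function.Injective ξ) :
    ∃ (θ : Fin d → AA) (p : ℤ[X]), (∀ r : ℝ, aeval r p ≠ 0) ∧ (∀ i, aeval (θ i) (q * p) = 0) ∧
      ∀ (σ : AA ≃ₐ[ℚ] AA) (ζ : AA) (i j : Fin d), ζ ^ e = 1 → act σ ζ (ξ i) = ξ j →
        σ (θ i) = θ j := by
  classical
  have hζ0 : ∀ ζ : AA, ζ ^ e = 1 → ζ ≠ 0 := by
    intro ζ h h0
    rw [h0, zero_pow (by omega)] at h
    exact zero_ne_one h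
  have hrep : ∀ i, ∃ (κ : AA) (μ : ℤ[X]), (∀ r : ℝ, aeval r μ ≠ 0) ∧ aeval κ (q * μ) = 0 ∧
      ∀ (σ : AA ≃ₐ[ℚ] AA) (ζ : AA), ζ ^ e = 1 → act σ ζ (ξ i) = ξ i → σ κ = κ := by
    intro i
    have hfd := Kf_fin hs hinj i
    have hnf : NumberField (Kf e (ξ i)) :=
      { to_charZero := inferInstance, to_finiteDimensional := hfd }
    by_cases hR : Nonempty (Kf e (ξ i) →+* ℝ)
    · obtain ⟨r, e', x, hr0, he1, hx⟩ := kf_root he hs1 hs hinj i
      obtain ⟨z, hz⟩ := hinf (Kf e (ξ i)) hR r e' x hr0 he1 hx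
      refine ⟨(z : AA), 1, fun r => ?_, ?_, fun σ ζ h1 h2 => z.2 σ ζ h1 h2⟩
      · rw [map_one]
        exact one_ne_zero
      · rw [mul_one, aeval_coe, hz]
        rfl
    · obtain ⟨θ, μ, h1, h2⟩ := no_real hR
      refine ⟨(θ : AA), μ, h1, ?_, fun σ ζ h1 h2 => θ.2 σ ζ h1 h2⟩
      rw [map_mul, aeval_coe θ μ, h2]
      exact mul_zero _
  choose κ μ hμ hκμ hκ using hrep
  -- the equivalence relation
  let Rl : Setoid (Fin d) :=
    { r := fun i j => ∃ (σ : AA ≃ₐ[ℚ] AA) (ζ : AA), ζ ^ e = 1 ∧ act σ ζ (ξ i) = ξ j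
      iseqv :=
        { refl := fun i => ⟨AlgEquiv.refl, 1, one_pow e, by
            refine PowerSeries.ext fun m => ?_
            rw [coeff_act, one_pow, one_mul]
            rfl⟩
          symm := by
            rintro i j ⟨σ, ζ, h1, h2⟩
            refine ⟨σ.symm, σ.symm ζ⁻¹, ?_, act_symm (hζ0 ζ h1) h2⟩
            rw [← map_pow, inv_pow, h1, inv_one, map_one]
          trans := by
            rintro i j l ⟨σ, ζ, h1, h2⟩ ⟨σ', ζ', h1', h2'⟩
            refine ⟨σ.trans σ', ζ' * σ' ζ, ?_, ?_⟩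
            · rw [mul_pow, ← map_pow, h1, h1', map_one, mul_one]
            · rw [← act_act, h2, h2'] } }
  obtain ⟨rep, hrepd⟩ : ∃ rep : Fin d → Fin d, ∀ i, rep i = (Quotient.mk Rl i).out :=
    ⟨fun i => (Quotient.mk Rl i).out, fun _ => rfl⟩
  have hr1 : ∀ i, ∃ (σ : AA ≃ₐ[ℚ] AA) (ζ : AA), ζ ^ e = 1 ∧ act σ ζ (ξ (rep i)) = ξ i := by
    intro i
    have h1 : Quotient.mk Rl (rep i) = Quotient.mk Rl i := by
      rw [hrepd]
      exact Quotient.out_eq _
    exact Quotient.exact h1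
  have hr2 : ∀ i j, (∃ (σ : AA ≃ₐ[ℚ] AA) (ζ : AA), ζ ^ e = 1 ∧ act σ ζ (ξ i) = ξ j) →
      rep i = rep j := by
    intro i j h
    have h1 : Quotient.mk Rl i = Quotient.mk Rl j := Quotient.sound h
    rw [hrepd, hrepd, h1]
  choose sg z hz hsz using hr1
  refine ⟨fun i => sg i (κ (rep i)), ∏ i, μ i, ?_, ?_, ?_⟩
  · intro r
    rw [map_prod]
    exact Finset.prod_ne_zero_iff.2 fun i _ => hμ i r
  · intro i
    have h1 := hκμ (rep i)
    rw [map_mul] at h1
    rw [aeval_aut, map_mul, map_prod]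
    rcases mul_eq_zero.1 h1 with h2 | h2
    · rw [h2, zero_mul, map_zero]
    · rw [Finset.prod_eq_zero (Finset.mem_univ (rep i)) h2, mul_zero, map_zero]
  · intro σ ζ i j h1 h2
    have h3 := hr2 i j ⟨σ, ζ, h1, h2⟩
    have h4 : act (sg j).symm ((sg j).symm (z j)⁻¹) (act σ ζ (act (sg i) (z i) (ξ (rep i)))) =
        ξ (rep i) := by
      rw [hsz i, h2, h3]
      exact act_symm (hζ0 _ (hz j)) (hsz j)
    rw [act_act, act_act] at h4
    have h5 := hκ (rep i) _ _ ?_ h4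
    · rw [AlgEquiv.trans_apply, AlgEquiv.trans_apply] at h5
      have h6 := congrArg (sg j) h5
      rw [AlgEquiv.apply_symm_apply] at h6
      change σ (sg i (κ (rep i))) = sg j (κ (rep j))
      rw [h6, h3]
    · rw [mul_pow, mul_pow, ← map_pow, ← map_pow, ← map_pow, inv_pow, hz, hz, h1]
      simp

end Pool.Agent.H98.AL
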