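import Pool.Agent.H98.AL.Cdf

/-!
# [H98 AL TRU] Truncation and division with remainder

PROOF. Write `R = PowerSeries ℚ`, `iq : ℤ[X] →+* R`.
(1) `c' = X^κ * c1` with `c1.coeff 0 ≠ 0` (`κ = c'.natTrailingDegree`, or `Polynomial.exists_eq_pow_rootMultiplicity_mul_and_not_dvd c' hc 0`). `iq c1` has constant
coefficient `c1.coeff 0 ≠ 0`, so it has an inverse `w` in `R` (`PowerSeries.isUnit_iff_constantCoeff`). `Ψ1 := C w * Ψ0`; by `hm_mul`:
`hm P E Ψ1 (C (X^κ)) = C w ^ E * hm P E Ψ0 (C (iq c')) = f.map iq * Q1`, as `C w * C (iq c') = C (X^κ)`.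
(2) `M := κ * E + 1`. `Ψ1 = Ψ2 + C (X^M) * Ψ3` with coefficients of `Ψ2` truncated (`PowerSeries.trunc M`, `PowerSeries.X_pow_dvd_iff`), and there are `m ≥ 1`, `Φ : ℤ[X][X]`
with `Φ.map iq = C (C (m : ℚ)) * Ψ2` (finitely many rational coefficients: common denominator; e.g. prove: for every `Ψ : R[X]` and `M` there are `m ≥ 1`, `Φ : ℤ[X][X]`,
`Ψ3 : R[X]` with `Φ.map iq = (m : R[X]) * Ψ + C (X^M) * Ψ3`, by `Polynomial.induction_on'`: sums `(m m', m' Φ + m Φ')`, monomials: one power series, induction on `M` or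
`trunc` and `IsLocalization.integerNormalization`).
(3) So `Φ.map iq = (m : R[X]) * Ψ1 + C (X^M) * S0`. `W := hm P E Φ (C (C (m : ℤ) * X^κ)) : ℤ[X][X]`;
`W.map iq = hm P E (Φ.map iq) ((m : R[X]) * C (X^κ))` (`hm_map` with `Polynomial.mapRingHom iq`) `= hm P E (m * Ψ1) (m * C (X^κ)) + C (X^M) * S1` (prove:
`hm P E (A + D * S) B = hm P E A B + D * S'` for some `S'`, e.g. `(A + D S)^l - A^l` is divisible by `D S`: `sub_dvd_pow_sub_pow`) `= m^E * f.map iq * Q1 + C (X^M) * S1`.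
(4) `Qh := W /ₘ f`, `r := W %ₘ f`, `W = r + f * Qh`. `r.map iq = (W.map iq) %ₘ (f.map iq)` (`Polynomial.map_modByMonic`) `= (C (X^M) * S1) %ₘ (f.map iq)
= C (X^M) * (S1 %ₘ f.map iq)` (`Polynomial.add_modByMonic`, `smul_modByMonic`, `mul_self_modByMonic`). So for every `l`: `iq (r.coeff l) = X^M * _`, i.e. the coefficients of
`r.coeff l` of index `< M` vanish (`coeff_iq : PowerSeries.coeff i (iq a) = (a.coeff i : ℚ)`), `X^M ∣ r.coeff l` (`Polynomial.X_pow_dvd_iff`),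
`C (X^M) ∣ r` (`Polynomial.C_dvd_iff_dvd_coeff`).
-/

namespace Pool.Agent.H98.AL

open Polynomial Pool.Agent.H72.ES Pool.Agent.H87.SA2 Pool.Agent.H97.XC Pool.Agent.H34.AC

private theorem iq_X : iq X = PowerSeries.X := by
  unfold iq
  rw [coe_eval₂RingHom, eval₂_X]

private theorem iq_C (a : ℤ) : iq (C a) = (a : PowerSeries ℚ) := by
  unfold iq
  rw [coe_eval₂RingHom, eval₂_C, eq_intCast]

private theorem coeff_iq (a : ℤ[X]) (i : ℕ) : PowerSeries.coeff i (iq a) = (a.coeff i : ℚ) := by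
  have h : iq = (Polynomial.coeToPowerSeries.ringHom (R := ℚ)).comp
      (mapRingHom (Int.castRingHom ℚ)) := by
    apply Polynomial.ringHom_ext
    · intro b
      rw [iq_C]
      simp
    · rw [iq_X]
      simp
  rw [h, RingHom.comp_apply, coe_mapRingHom, Polynomial.coeToPowerSeries.ringHom_apply,
    Polynomial.coeff_coe, coeff_map, eq_intCast]

private theorem exists_den (a : PowerSeries ℚ) (M : ℕ) :
    ∃ (m : ℕ) (b : ℤ[X]) (d : PowerSeries ℚ), 1 ≤ m ∧
      iq b = (m : PowerSeries ℚ) * a + PowerSeries.X ^ M * d := by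
  induction M with
  | zero =>
    refine ⟨1, 0, -a, le_rfl, ?_⟩
    rw [map_zero, Nat.cast_one, pow_zero, one_mul, one_mul, add_neg_cancel]
  | succ M ih =>
    obtain ⟨m, b, d, hm, h⟩ := ih
    obtain ⟨d', hd'⟩ : ∃ d', d = PowerSeries.C (PowerSeries.constantCoeff d) +
        PowerSeries.X * d' := by
      have h1 : (PowerSeries.X : PowerSeries ℚ) ∣
          d - PowerSeries.C (PowerSeries.constantCoeff d) := by
        rw [PowerSeries.X_dvd_iff, map_sub, PowerSeries.constantCoeff_C, sub_self]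
      obtain ⟨d', h2⟩ := h1
      exact ⟨d', by rw [← h2]; ring⟩
    set r : ℚ := PowerSeries.constantCoeff d with hr
    have hden : (r.den : PowerSeries ℚ) * PowerSeries.C r = ((r.num : ℤ) : PowerSeries ℚ) := by
      have h1 : (r.den : ℚ) * r = r.num := by
        rw [mul_comm]
        exact Rat.mul_den_eq_num r
      have h2 := congrArg (PowerSeries.C (R := ℚ)) h1
      rw [map_mul, map_natCast, map_intCast] at h2
      exact h2
    refine ⟨r.den * m, (r.den : ℤ[X]) * b - C r.num * X ^ M, (r.den : PowerSeries ℚ) * d',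
      Nat.mul_pos r.den_pos hm, ?_⟩
    rw [map_sub, map_mul, map_natCast, map_mul, map_pow, iq_C, iq_X, h, hd', ← hden, Nat.cast_mul,
      pow_succ]
    ring

private theorem exists_denP (Ψ : (PowerSeries ℚ)[X]) (M : ℕ) :
    ∃ (m : ℕ) (Φ : ℤ[X][X]) (S : (PowerSeries ℚ)[X]), 1 ≤ m ∧
      Φ.map iq = (m : (PowerSeries ℚ)[X]) * Ψ + C (PowerSeries.X ^ M) * S := by
  induction Ψ using Polynomial.induction_on' with
  | add p q hp hq =>
    obtain ⟨m, Φ, S, hm, h⟩ := hp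
    obtain ⟨m', Φ', S', hm', h'⟩ := hq
    refine ⟨m * m', (m' : ℤ[X][X]) * Φ + (m : ℤ[X][X]) * Φ',
      (m' : (PowerSeries ℚ)[X]) * S + (m : (PowerSeries ℚ)[X]) * S', Nat.mul_pos hm hm', ?_⟩
    rw [Polynomial.map_add, Polynomial.map_mul, Polynomial.map_mul, Polynomial.map_natCast,
      Polynomial.map_natCast, h, h', Nat.cast_mul]
    ring
  | monomial n a =>
    obtain ⟨m, b, d, hm, h⟩ := exists_den a M
    refine ⟨m, monomial n b, monomial n d, hm, ?_⟩
    rw [map_monomial, h, map_add, C_mul_monomial, ← C_eq_natCast, C_mul_monomial]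

private theorem hm_pert {S : Type*} [CommRing S] (P : ℤ[X]) (E : ℕ) (A D T B : S) :
    ∃ T' : S, hm P E (A + D * T) B = hm P E A B + D * T' := by
  have h : D ∣ hm P E (A + D * T) B - hm P E A B := by
    unfold hm
    rw [← Finset.sum_sub_distrib]
    refine Finset.dvd_sum fun l _ => ?_
    have h1 : (P.coeff l : S) * (A + D * T) ^ l * B ^ (E - l) -
        (P.coeff l : S) * A ^ l * B ^ (E - l) =
        ((A + D * T) ^ l - A ^ l) * ((P.coeff l : S) * B ^ (E - l)) := by ring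
    rw [h1]
    apply Dvd.dvd.mul_right
    refine Dvd.dvd.trans ?_ (sub_dvd_pow_sub_pow (A + D * T) A l)
    rw [add_sub_cancel_left]
    exact dvd_mul_right _ _
  obtain ⟨T', h1⟩ := h
  exact ⟨T', by rw [← h1]; ring⟩

theorem exists_trunc {f : ℤ[X][X]} (hf : f.Monic) {P : ℤ[X]} {E : ℕ} {c' : ℤ[X]} (hc : c' ≠ 0)
    {Ψ0 Q0 : (PowerSeries ℚ)[X]} (h : hm P E Ψ0 (C (iq c')) = f.map iq * Q0) :
    ∃ (κ m : ℕ) (Φ Qh Rh : ℤ[X][X]), 1 ≤ m ∧
      hm P E Φ (C (C (m : ℤ) * X ^ κ)) = f * Qh + C (X ^ (κ * E + 1)) * Rh := by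
  obtain ⟨c1, hc1, hc2⟩ := Polynomial.exists_eq_pow_rootMultiplicity_mul_and_not_dvd c' hc 0
  rw [C_0, sub_zero] at hc1 hc2
  set κ : ℕ := rootMultiplicity 0 c' with hκ
  rw [Polynomial.X_dvd_iff] at hc2
  have hu : IsUnit (iq c1) := by
    rw [PowerSeries.isUnit_iff_constantCoeff, ← PowerSeries.coeff_zero_eq_constantCoeff_apply,
      coeff_iq, isUnit_iff_ne_zero]
    exact_mod_cast hc2
  obtain ⟨w, hw⟩ := hu.exists_left_inv
  have h1 : hm P E (C w * Ψ0) (C (PowerSeries.X ^ κ)) = f.map iq * (C w ^ E * Q0) := by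
    have h2 : (C (PowerSeries.X ^ κ) : (PowerSeries ℚ)[X]) = C w * C (iq c') := by
      rw [← C_mul, hc1, map_mul iq, map_pow iq, iq_X]
      congr 1
      calc (PowerSeries.X : PowerSeries ℚ) ^ κ = PowerSeries.X ^ κ * 1 := (mul_one _).symm
        _ = PowerSeries.X ^ κ * (w * iq c1) := by rw [hw]
        _ = _ := by ring
    rw [h2, hm_mul, h]
    ring
  set M : ℕ := κ * E + 1 with hM
  obtain ⟨m, Φ, S0, hm1, hΦ⟩ := exists_denP (C w * Ψ0) M
  set W : ℤ[X][X] := hm P E Φ (C (C (m : ℤ) * X ^ κ)) with hW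
  have h3 : ∃ Q2 S1 : (PowerSeries ℚ)[X],
      W.map iq = f.map iq * Q2 + C (PowerSeries.X ^ M) * S1 := by
    have h4 : W.map iq = hm P E (Φ.map iq)
        ((m : (PowerSeries ℚ)[X]) * C (PowerSeries.X ^ κ)) := by
      have h5 := hm_map (mapRingHom iq) P E Φ (C (C (m : ℤ) * X ^ κ))
      have h7 : iq (C (m : ℤ) * X ^ κ) = (m : PowerSeries ℚ) * PowerSeries.X ^ κ := by
        rw [map_mul, map_pow, iq_X, iq_C, Int.cast_natCast]
      rw [coe_mapRingHom, map_C, h7] at h5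
      rw [hW, h5]
      congr 1
      rw [C_mul, C_eq_natCast]
    obtain ⟨S1, hS1⟩ := hm_pert P E ((m : (PowerSeries ℚ)[X]) * (C w * Ψ0))
      (C (PowerSeries.X ^ M)) S0 ((m : (PowerSeries ℚ)[X]) * C (PowerSeries.X ^ κ))
    rw [hΦ, hS1, hm_mul, h1] at h4
    exact ⟨(m : (PowerSeries ℚ)[X]) ^ E * (C w ^ E * Q0), S1, by rw [h4]; ring⟩
  obtain ⟨Q2, S1, h4⟩ := h3
  have hfm : (f.map iq).Monic := hf.map iq
  have h5 : (W %ₘ f).map iq = C (PowerSeries.X ^ M) * (S1 %ₘ f.map iq) := by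
    rw [map_modByMonic _ hf, h4, add_modByMonic]
    have h6 : (f.map iq * Q2) %ₘ f.map iq = 0 :=
      (modByMonic_eq_zero_iff_dvd hfm).2 (dvd_mul_right _ _)
    rw [h6, zero_add, ← smul_eq_C_mul, smul_modByMonic, smul_eq_C_mul]
  have h6 : (C (X ^ M) : ℤ[X][X]) ∣ W %ₘ f := by
    rw [C_dvd_iff_dvd_coeff]
    intro l
    rw [X_pow_dvd_iff]
    intro i hi
    have h7 := congrArg (fun p => PowerSeries.coeff i (p.coeff l)) h5
    simp only [coeff_map, coeff_C_mul] at h7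
    rw [coeff_iq, PowerSeries.coeff_X_pow_mul', if_neg (by omega)] at h7
    exact_mod_cast h7
  obtain ⟨Rh, hRh⟩ := h6
  refine ⟨κ, m, Φ, W /ₘ f, Rh, hm1, ?_⟩
  rw [← hW, ← hM, ← hRh]
  rw [add_comm]
  exact (modByMonic_add_div W f).symm

end Pool.Agent.H98.AL
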