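import Pool.Agent.H98.AL.SHF
import Pool.Agent.H98.AL.MDL
import Pool.Agent.H98.AL.INM
import Pool.Agent.H98.AL.THE
import Pool.Agent.H98.AL.LAG
import Pool.Agent.H98.AL.INV
import Pool.Agent.H98.AL.TRU
import Pool.Agent.H98.AL.CNV
import Pool.Agent.H97.XC.Disc

/-!
# [H98 AL COMPLETE] Every irreducible `G` with `Star q G` has a certificate
-/

namespace Pool.Agent.H98.AL

open Polynomial Pool.Agent.H72.ES Pool.Agent.H87.SA2 Pool.Agent.H97.XC Pool.Agent.H34.AC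

/-- the interpolation over `ℚ[[u]]` -/
theorem exists_psi0 {f : ℤ[X][X]} (hf : f.Monic) (hsq : Squarefree f) {q : ℤ[X]}
    (hinf : INFQ q f) :
    ∃ (c' : ℤ[X]) (p : ℤ[X]), c' ≠ 0 ∧ (∀ r : ℝ, aeval r p ≠ 0) ∧ ∀ E, (q * p).natDegree ≤ E →
      ∃ Ψ0 Q0 : (PowerSeries ℚ)[X], hm (q * p) E Ψ0 (C (iq c')) = f.map iq * Q0 := by
  obtain ⟨a, b, c', hc, hbez⟩ := sqf_bez hf hsq
  obtain ⟨pd, -⟩ := exists_pdata f hf a b c' hc hbez
  obtain ⟨ξ, -, hs, hinj⟩ := exists_xi pd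
  obtain ⟨θ, p, hp, hθ, heq⟩ := exists_theta hinf pd.e_pos pd.q_pos hs hinj
  refine ⟨c', p, hc, hp, fun E hE => ?_⟩
  obtain ⟨Ψ, Q, hΨ, hinv⟩ := exists_psi pd.e_pos hs hinj hbez hE hθ heq
  obtain ⟨β, hβ, hβq, hβs⟩ := exists_desc pd.e_pos pd.q_pos
  obtain ⟨Ψ0, hΨ0⟩ : ∃ Ψ0 : (PowerSeries ℚ)[X], Ψ0.map β = Ψ := by
    have h1 : Ψ ∈ Polynomial.lifts β := by
      rw [Polynomial.lifts_iff_coeff_lifts]
      intro l
      obtain ⟨y0, hy0⟩ := hβs (Ψ.coeff l) (fun σ ζ h => hinv σ ζ h l)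
      exact ⟨y0, hy0⟩
    exact (Polynomial.mem_lifts Ψ).1 h1
  have hfq : (f.map iq).Monic := hf.map iq
  obtain ⟨W, hW⟩ : ∃ W, W = hm (q * p) E Ψ0 (C (iq c')) := ⟨_, rfl⟩
  have h2 : W.map β = (f.map iq).map β * Q := by
    have h3 := hm_map (Polynomial.mapRingHom β) (q * p) E Ψ0 (C (iq c'))
    have h5 : β (iq c') = tKq AA pd.e pd.q c' := by rw [← hβq, RingHom.comp_apply]
    rw [Polynomial.coe_mapRingHom, hΨ0, Polynomial.map_C, h5, hΨ] at h3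
    rw [hW, h3, Polynomial.map_map, hβq]
  have h4 : (f.map iq) ∣ W := by
    rw [← Polynomial.modByMonic_eq_zero_iff_dvd hfq]
    apply Polynomial.map_injective β hβ
    rw [Polynomial.map_modByMonic β hfq, Polynomial.map_zero,
      Polynomial.modByMonic_eq_zero_iff_dvd (hfq.map β)]
    exact ⟨Q, h2⟩
  obtain ⟨Q0, hQ0⟩ := h4
  exact ⟨Ψ0, Q0, by rw [← hW, hQ0]⟩

theorem complete {q : ℤ[X]} {G : P2}
    (hG : Irreducible (MvPolynomial.map (Int.castRingHom ℚ) G)) (h : Star q G) :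
    ∃ (p : ℤ[X]) (c s e m : ℕ) (N Q R : P2), CertP q p c s e m N Q R G := by
  obtain ⟨c, h1, hg, hirr⟩ := exists_shf hG
  obtain ⟨F', hF1, hFirr, hrel⟩ := exists_md h1 rfl hg hirr
  have hinf := inf_model hg hrel h
  obtain ⟨c', p, hc, hp, hE⟩ := exists_psi0 (fI_monic hF1).1 (fI_sqf hF1 hFirr) hinf
  obtain ⟨Ψ0, Q0, hΨ⟩ := hE ((q * p).natDegree + 1) (by omega)
  obtain ⟨κ, m, Φ, Qh, Rh, hm1, hid⟩ := exists_trunc (fI_monic hF1).1 hc hΨ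
  obtain ⟨s, N, Q, R, heq, hR⟩ := exists_con hrel (by omega) hid
  exact ⟨p, c, s, (q * p).natDegree + 1, m, N, Q, R,
    { nr := hp
      de := by omega
      m1 := hm1
      lc := hg
      eq := heq
      tr := hR }⟩

end Pool.Agent.H98.AL
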