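import Mathlib

/-!
# THEOREM ALG (MP_821da1_nt): certificates for the condition at infinity

`P2 = ℤ[x, y]`. `vl F x y` the value, `shf c G = G(x - c y, y)`. `hm P e A B = ∑_{l ≤ e} P_l A^l B^(e-l)`.
`Star q G`: all points at infinity of `G = 0` with real residue field `L` have a zero of `q ∈ ℤ[T]` in `L`. If `q` is
irreducible and `k = ℚ[T]/(q)` this says that `L` contains a copy of `k`.
`CertP q p c s e m N Q R G`: a certificate for `Star q G`: `ψ = N / (m x^s)` is a function on the curve
`G(x - c y, y) = 0` with `q(ψ) p(ψ) = 0` at all points at infinity, `p` has no real zero.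

`sound` (file `Sound.lean`): `CertP → Star q G`. `complete` (file `Complete.lean`): every `G` irreducible over `ℚ` with
`Star q G` has a certificate.
-/

namespace Pool.Agent.H98.AL

open MvPolynomial

/-- `ℤ[x, y]` -/
abbrev P2 : Type := MvPolynomial (Fin 2) ℤ

/-- the value `F(x, y)` in a commutative ring -/
noncomputable def vl {S : Type*} [CommRing S] (F : P2) (x y : S) : S :=
  eval₂ (Int.castRingHom S) ![x, y] F

/-- `G(x - c y, y)` -/
noncomputable def shf (c : ℕ) (G : P2) : P2 := vl G (X 0 - C (c : ℤ) * X 1 : P2) (X 1 : P2)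

/-- the largest absolute value of a coefficient -/
noncomputable def ht (F : P2) : ℕ := F.support.sup fun t => (coeff t F).natAbs

/-- `∑_{l ≤ e} P_l A^l B^(e - l)` -/
noncomputable def hm {S : Type*} [CommRing S] (P : Polynomial ℤ) (e : ℕ) (A B : S) : S :=
  ∑ l ∈ Finset.range (e + 1), (P.coeff l : S) * A ^ l * B ^ (e - l)

/-- all points at infinity of `F = 0` with real residue field `L` have a zero of `q` in `L` -/
def Star (q : Polynomial ℤ) (F : P2) : Prop :=
  ∀ (L : Type) [Field L] [NumberField L], Nonempty (L →+* ℝ) → ∀ X Y : LaurentSeries L,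
    eval₂ (Int.castRingHom (LaurentSeries L)) ![X, Y] F = 0 →
      (X ∈ (HahnSeries.ofPowerSeries ℤ L).range ∧ Y ∈ (HahnSeries.ofPowerSeries ℤ L).range) ∨
        ∃ z : L, Polynomial.aeval z q = 0

/-- a certificate for `G` -/
structure CertP (q p : Polynomial ℤ) (c s e m : ℕ) (N Q R G : P2) : Prop where
  nr : ∀ r : ℝ, Polynomial.aeval r p ≠ 0
  de : (q * p).natDegree ≤ e
  m1 : 1 ≤ m
  lc : coeff (Finsupp.single 1 (shf c G).totalDegree) (shf c G) ≠ 0
  eq : hm (q * p) e N (C (m : ℤ) * X 0 ^ s : P2) = shf c G * Q + R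
  tr : R.totalDegree < s * e

end Pool.Agent.H98.AL
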