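import Pool.Agent.H98.AL.GEN

/-!
# [H98 AL RSM] The remainder is small at the poles

PROOF. `ι = HahnSeries.ofPowerSeries ℤ L`. Put `ρ = ∑_{t ∈ R.support} R_t u^{D - t 0 - t 1} z^{t 1}`; every exponent
`D - t 0 - t 1` is at least `1` (`MvPolynomial.le_totalDegree`), so `constantCoeff ρ = 0`. With `vl_sum`:
`X^{t 0} Y^{t 1} (ι u)^D = X^{t 0 + t 1} (ι z)^{t 1} (ι u)^{t 0 + t 1} (ι u)^{D - t 0 - t 1} = (ι z)^{t 1} (ι u)^{D - t 0 - t 1}`.
-/

namespace Pool.Agent.H98.AL

open MvPolynomial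

theorem rem_small {L : Type} [Field L] {R : P2} {D : ℕ} (hR : R.totalDegree < D)
    {X : LaurentSeries L} {u z : PowerSeries L} (hu : PowerSeries.constantCoeff u = 0)
    (hX : HahnSeries.ofPowerSeries ℤ L u * X = 1) :
    ∃ ρ : PowerSeries L, PowerSeries.constantCoeff ρ = 0 ∧
      vl R X (HahnSeries.ofPowerSeries ℤ L z * X) * HahnSeries.ofPowerSeries ℤ L u ^ D =
        HahnSeries.ofPowerSeries ℤ L ρ := by
  have hdeg : ∀ t ∈ R.support, t 0 + t 1 ≤ R.totalDegree := by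
    intro t ht
    have h1 := le_totalDegree ht
    rw [Finsupp.sum_fintype _ _ (fun _ => rfl), Fin.sum_univ_two] at h1
    exact h1
  refine ⟨∑ t ∈ R.support, ((coeff t R : ℤ) : PowerSeries L) *
    (z ^ t 1 * u ^ (D - (t 0 + t 1))), ?_, ?_⟩
  · rw [map_sum]
    refine Finset.sum_eq_zero fun t ht => ?_
    have h1 := hdeg t ht
    rw [map_mul, map_mul, map_pow, map_pow, hu, zero_pow (by omega), mul_zero, mul_zero]
  · rw [vl_sum, Finset.sum_mul, map_sum]
    refine Finset.sum_congr rfl fun t ht => ?_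
    have h1 := hdeg t ht
    rw [map_mul, map_mul, map_pow, map_pow, map_intCast]
    have hD : D = (t 0 + t 1) + (D - (t 0 + t 1)) := by omega
    generalize HahnSeries.ofPowerSeries ℤ L u = U at hX ⊢
    generalize HahnSeries.ofPowerSeries ℤ L z = Z
    calc ((coeff t R : ℤ) : LaurentSeries L) * (X ^ t 0 * (Z * X) ^ t 1) * U ^ D
        = ((coeff t R : ℤ) : LaurentSeries L) * (X ^ t 0 * (Z * X) ^ t 1) *
            U ^ ((t 0 + t 1) + (D - (t 0 + t 1))) := by rw [← hD]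
      _ = ((coeff t R : ℤ) : LaurentSeries L) * (Z ^ t 1 * U ^ (D - (t 0 + t 1))) *
            (U * X) ^ (t 0 + t 1) := by ring
      _ = ((coeff t R : ℤ) : LaurentSeries L) * (Z ^ t 1 * U ^ (D - (t 0 + t 1))) := by
          rw [hX, one_pow, mul_one]

end Pool.Agent.H98.AL
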