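import Pool.Agent.H98.AL.GEN

/-!
# [H98 AL RTL] A zero of `q` from a function with small value

`P(ψ) = ι ρ`, `ρ(0) = 0`.

PROOF. `ι = HahnSeries.ofPowerSeries ℤ L`. `p ≠ 0` (`aeval 0 p ≠ 0`), so `P = q * p ≠ 0` has an integer leading coefficient `a ≠ 0`, degree `n`.
If `n = 0`: `P = a`, `ι ρ = a` (as `P(ψ) = a`), so `ρ = a`, `ρ(0) = a ≠ 0`: contradiction. If `n ≥ 1`: `ψ ∈ ι.range`, because otherwise
`ψ⁻¹ = ι z` with `z(0) = 0` (order `< 0`), and `P(ψ) (ι z)^n = ι (ρ z^n)`, so `a + ∑_{l < n} P_l z^{n - l} = ρ z^n` has constant coefficient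
`a = 0`: contradiction. So `ψ = ι v`, `z0 = constantCoeff v`: `P(v) = ρ` (`ι` injective, `HahnSeries.ofPowerSeries_injective`), apply `constantCoeff`:
`q(z0) p(z0) = 0` in `L`. `p(z0) ≠ 0`: for `σ : L →+* ℝ`, `σ (p(z0)) = p(σ z0) ≠ 0`. So `q(z0) = 0`.
-/

namespace Pool.Agent.H98.AL

private theorem inv_or {L : Type} [Field L] (x : LaurentSeries L) :
    x ∈ (HahnSeries.ofPowerSeries ℤ L).range ∨
      ∃ z : PowerSeries L, PowerSeries.constantCoeff z = 0 ∧
        HahnSeries.ofPowerSeries ℤ L z * x = 1 := by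
  by_cases hx : x = 0
  · left
    exact ⟨0, by rw [hx, map_zero]⟩
  rcases le_or_gt 0 x.order with h | h
  · left
    obtain ⟨n, hn⟩ := Int.eq_ofNat_of_zero_le h
    exact ⟨_, LaurentSeries.X_order_mul_powerSeriesPart hn.symm⟩
  · right
    have hx' : x⁻¹ ≠ 0 := inv_ne_zero hx
    have h1 : x⁻¹.order + x.order = 0 := by
      rw [← HahnSeries.order_mul hx' hx, inv_mul_cancel₀ hx, HahnSeries.order_one]
    obtain ⟨n, hn⟩ := Int.eq_ofNat_of_zero_le (show 0 ≤ x⁻¹.order by omega)
    refine ⟨PowerSeries.X ^ n * LaurentSeries.powerSeriesPart x⁻¹, ?_, ?_⟩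
    · have hn1 : n ≠ 0 := by omega
      rw [map_mul, map_pow, PowerSeries.constantCoeff_X, zero_pow hn1, zero_mul]
    · rw [LaurentSeries.X_order_mul_powerSeriesPart hn.symm, inv_mul_cancel₀ hx]

theorem root_of_small {L : Type} [Field L] [NumberField L] (hL : Nonempty (L →+* ℝ))
    {q p : Polynomial ℤ} (hq : q ≠ 0) (hp : ∀ r : ℝ, Polynomial.aeval r p ≠ 0)
    {ψ : LaurentSeries L} {ρ : PowerSeries L} (hρ : PowerSeries.constantCoeff ρ = 0)
    (h : Polynomial.eval₂ (Int.castRingHom (LaurentSeries L)) ψ (q * p) =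
      HahnSeries.ofPowerSeries ℤ L ρ) :
    ∃ z : L, Polynomial.aeval z q = 0 := by
  have hp0 : p ≠ 0 := by
    intro h0
    exact hp 0 (by rw [h0, map_zero])
  have hP : q * p ≠ 0 := mul_ne_zero hq hp0
  obtain ⟨P, hPdef⟩ : ∃ P : Polynomial ℤ, P = q * p := ⟨_, rfl⟩
  rw [← hPdef] at h hP
  rcases inv_or ψ with ⟨v, rfl⟩ | ⟨z, hz, hzψ⟩
  · have h1 : Polynomial.eval₂ (Int.castRingHom (PowerSeries L)) v P = ρ := by
      apply HahnSeries.ofPowerSeries_injective (Γ := ℤ) (R := L)
      rw [← h, Polynomial.hom_eval₂]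
      congr 1
      exact RingHom.ext_int _ _
    have h2 : Polynomial.eval₂ (Int.castRingHom L) (PowerSeries.constantCoeff v) P = 0 := by
      rw [← hρ, ← h1, Polynomial.hom_eval₂]
      congr 1
      exact RingHom.ext_int _ _
    rw [hPdef, Polynomial.eval₂_mul] at h2
    refine ⟨PowerSeries.constantCoeff v, ?_⟩
    rcases mul_eq_zero.1 h2 with h3 | h3
    · have h5 : algebraMap ℤ L = Int.castRingHom L := RingHom.ext_int _ _
      rw [Polynomial.aeval_def, h5]
      exact h3
    · exfalso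
      obtain ⟨σ⟩ := hL
      apply hp (σ (PowerSeries.constantCoeff v))
      have h4 := congrArg σ h3
      rw [Polynomial.hom_eval₂, map_zero] at h4
      rw [Polynomial.aeval_def]
      have h5 : σ.comp (Int.castRingHom L) = algebraMap ℤ ℝ := RingHom.ext_int _ _
      rw [← h5]
      exact h4
  · exfalso
    have h1 : HahnSeries.ofPowerSeries ℤ L (∑ l ∈ Finset.range (P.natDegree + 1),
        ((P.coeff l : ℤ) : PowerSeries L) * z ^ (P.natDegree - l)) =
        HahnSeries.ofPowerSeries ℤ L (ρ * z ^ P.natDegree) := by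
      rw [map_mul, ← h, map_pow, Polynomial.eval₂_eq_sum_range, map_sum, Finset.sum_mul]
      refine Finset.sum_congr rfl fun l hl => ?_
      rw [Finset.mem_range] at hl
      rw [map_mul, map_intCast, map_pow, eq_intCast]
      generalize HahnSeries.ofPowerSeries ℤ L z = Z at hzψ ⊢
      have hD : P.natDegree = l + (P.natDegree - l) := by omega
      calc ((P.coeff l : ℤ) : LaurentSeries L) * Z ^ (P.natDegree - l)
          = ((P.coeff l : ℤ) : LaurentSeries L) * (Z * ψ) ^ l * Z ^ (P.natDegree - l) := by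
            rw [hzψ, one_pow, mul_one]
        _ = ((P.coeff l : ℤ) : LaurentSeries L) * ψ ^ l * Z ^ (l + (P.natDegree - l)) := by ring
        _ = ((P.coeff l : ℤ) : LaurentSeries L) * ψ ^ l * Z ^ P.natDegree := by rw [← hD]
    have h2 := HahnSeries.ofPowerSeries_injective h1
    have h3 := congrArg (PowerSeries.constantCoeff (R := L)) h2
    rw [map_sum, map_mul, hρ, zero_mul, Finset.sum_range_succ, Nat.sub_self, pow_zero, mul_one,
      map_intCast, Finset.sum_eq_zero, zero_add] at h3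
    · have h4 : P.coeff P.natDegree = 0 := by exact_mod_cast h3
      exact hP (Polynomial.leadingCoeff_eq_zero.1 h4)
    · intro l hl
      rw [Finset.mem_range] at hl
      rw [map_mul, map_pow, hz, zero_pow (by omega), mul_zero]

end Pool.Agent.H98.AL
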