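import Pool.Agent.H98.AL.PLE
import Pool.Agent.H98.AL.RSM
import Pool.Agent.H98.AL.RTL

/-!
# [H98 AL SOUND] The certificates are sound
-/

namespace Pool.Agent.H98.AL

open MvPolynomial

theorem chz {L : Type} [Field L] [CharZero L] : CharZero (LaurentSeries L) := by
  have h : Function.Injective ((HahnSeries.ofPowerSeries ℤ L).comp (PowerSeries.C (R := L))) :=
    RingHom.injective _
  refine ⟨fun a b hab => ?_⟩
  have h2 : (((HahnSeries.ofPowerSeries ℤ L).comp (PowerSeries.C (R := L))) (a : L)) =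
      (((HahnSeries.ofPowerSeries ℤ L).comp (PowerSeries.C (R := L))) (b : L)) := by
    rw [map_natCast, map_natCast]
    exact hab
  exact Nat.cast_injective (h h2)

theorem sound {q : Polynomial ℤ} (hq : q ≠ 0) {p : Polynomial ℤ} {c s e m : ℕ} {N Q R G : P2}
    (h : CertP q p c s e m N Q R G) : Star q G := by
  intro L _ _ hL X Y hXY
  by_contra hcon
  push Not at hcon
  obtain ⟨hno, hk⟩ := hcon
  have : CharZero (LaurentSeries L) := chz
  have hm0 : ((m : ℕ) : LaurentSeries L) ≠ 0 := by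
    have h1 := h.m1
    exact Nat.cast_ne_zero.2 (by omega)
  -- the shifted curve
  obtain ⟨A, hA⟩ : ∃ A, A = shf c G := ⟨_, rfl⟩
  obtain ⟨X', hX'⟩ : ∃ X' : LaurentSeries L, X' = X + c * Y := ⟨_, rfl⟩
  have hA0 : vl A X' Y = 0 := by
    rw [hA, vl_shf, hX', add_sub_cancel_right]
    exact hXY
  have hlc := h.lc
  rw [← hA] at hlc
  have hA1 : 1 ≤ A.totalDegree := by
    by_contra h1
    have h2 : A.totalDegree = 0 := by omega
    rw [h2, Finsupp.single_zero] at hlc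
    have h3 : A = C (coeff 0 A) := (totalDegree_eq_zero_iff_eq_C).1 h2
    rw [h3, vl_C] at hA0
    exact hlc (by exact_mod_cast hA0)
  have hno' : ¬ (X' ∈ (HahnSeries.ofPowerSeries ℤ L).range ∧
      Y ∈ (HahnSeries.ofPowerSeries ℤ L).range) := by
    rintro ⟨h1, h2⟩
    apply hno _ h2
    have h3 : X = X' - c * Y := by rw [hX']; ring
    rw [h3]
    exact sub_mem h1 (mul_mem (natCast_mem _ c) h2)
  obtain ⟨u, z, hu, huX, hYz⟩ := pole hA1 hlc hA0 hno'
  obtain ⟨ρ, hρ, hρ'⟩ := rem_small (z := z) h.tr hu huX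
  rw [← hYz] at hρ'
  -- the value of the identity
  have h1 := congrArg (fun F : P2 => vl F X' Y) h.eq
  beta_reduce at h1
  rw [vl_hm, vl_add, ← hA, vl_mul A Q, hA0, zero_mul, zero_add, vl_mul, vl_C, vl_pow, vl_X0] at h1
  obtain ⟨W, hW⟩ : ∃ W : LaurentSeries L, W = ((m : ℤ) : LaurentSeries L) * X' ^ s := ⟨_, rfl⟩
  rw [← hW] at h1
  have hXne : X' ≠ 0 := by
    rintro h2
    rw [h2, mul_zero] at huX
    exact zero_ne_one huX
  have hW0 : W ≠ 0 := by
    rw [hW]
    refine mul_ne_zero ?_ (pow_ne_zero _ hXne)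
    exact_mod_cast hm0
  obtain ⟨ψ, hψ⟩ : ∃ ψ : LaurentSeries L, ψ = vl N X' Y / W := ⟨_, rfl⟩
  have h2 : hm (q * p) e (vl N X' Y) W = W ^ e * hm (q * p) e ψ 1 := by
    rw [← hm_mul, mul_one, hψ, mul_div_cancel₀ _ hW0]
  rw [h2, hm_one h.de] at h1
  have h3 : W ^ e * HahnSeries.ofPowerSeries ℤ L u ^ (s * e) =
      HahnSeries.ofPowerSeries ℤ L (PowerSeries.C ((m : L) ^ e)) := by
    have h4 : X' ^ (s * e) * HahnSeries.ofPowerSeries ℤ L u ^ (s * e) = 1 := by
      rw [← mul_pow, mul_comm X', huX, one_pow]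
    rw [hW, mul_pow, ← pow_mul, mul_assoc, h4, mul_one, map_pow, map_natCast, map_pow, map_natCast]
    push_cast
    rfl
  have hmL : ((m : L) ^ e) ≠ 0 := pow_ne_zero _ (by
    have := h.m1
    exact Nat.cast_ne_zero.2 (by omega))
  have h5 : Polynomial.eval₂ (Int.castRingHom (LaurentSeries L)) ψ (q * p) =
      HahnSeries.ofPowerSeries ℤ L (PowerSeries.C ((m : L) ^ e)⁻¹ * ρ) := by
    have h6 : HahnSeries.ofPowerSeries ℤ L (PowerSeries.C ((m : L) ^ e)) *
        Polynomial.eval₂ (Int.castRingHom (LaurentSeries L)) ψ (q * p) =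
        HahnSeries.ofPowerSeries ℤ L ρ := by
      rw [← hρ', ← h1, ← h3]
      ring
    rw [map_mul, ← h6, ← mul_assoc, ← map_mul, ← map_mul, inv_mul_cancel₀ hmL, map_one, map_one,
      one_mul]
  obtain ⟨z0, hz0⟩ := root_of_small hL hq h.nr (ρ := PowerSeries.C ((m : L) ^ e)⁻¹ * ρ)
    (by rw [map_mul, hρ, mul_zero]) h5
  exact hk z0 hz0

end Pool.Agent.H98.AL
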