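import Pool.Agent.H98.AL.Defs

/-! # [H98 AL GEN] Rules for `vl` -/

namespace Pool.Agent.H98.AL

open MvPolynomial

section
variable {S : Type*} [CommRing S]

theorem vl_add (F G : P2) (x y : S) : vl (F + G) x y = vl F x y + vl G x y := by
  unfold vl
  rw [eval₂_add]

theorem vl_mul (F G : P2) (x y : S) : vl (F * G) x y = vl F x y * vl G x y := by
  unfold vl
  rw [eval₂_mul]

theorem vl_sub (F G : P2) (x y : S) : vl (F - G) x y = vl F x y - vl G x y := by
  unfold vl
  rw [eval₂_sub]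

theorem vl_pow (F : P2) (n : ℕ) (x y : S) : vl (F ^ n) x y = vl F x y ^ n := by
  unfold vl
  rw [eval₂_pow]

theorem vl_zero (x y : S) : vl (0 : P2) x y = 0 := by
  unfold vl
  rw [eval₂_zero]

theorem vl_one (x y : S) : vl (1 : P2) x y = 1 := by
  unfold vl
  rw [eval₂_one]

theorem vl_C (a : ℤ) (x y : S) : vl (C a : P2) x y = (a : S) := by
  unfold vl
  rw [eval₂_C, eq_intCast]

theorem vl_X0 (x y : S) : vl (X 0 : P2) x y = x := by
  unfold vl
  rw [eval₂_X]
  rfl

theorem vl_X1 (x y : S) : vl (X 1 : P2) x y = y := by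
  unfold vl
  rw [eval₂_X]
  rfl

/-- the value as a sum over the terms -/
theorem vl_sum (F : P2) (x y : S) :
    vl F x y = ∑ t ∈ F.support, ((coeff t F : ℤ) : S) * (x ^ t 0 * y ^ t 1) := by
  unfold vl
  rw [eval₂_eq']
  refine Finset.sum_congr rfl fun t _ => ?_
  rw [Fin.prod_univ_two, eq_intCast]
  rfl

/-- ring homomorphisms -/
theorem vl_map {S' : Type*} [CommRing S'] (φ : S →+* S') (F : P2) (x y : S) :
    φ (vl F x y) = vl F (φ x) (φ y) := by
  rw [vl_sum, vl_sum, map_sum]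
  refine Finset.sum_congr rfl fun t _ => ?_
  rw [map_mul, map_mul, map_pow, map_pow, map_intCast]

/-- composition -/
theorem vl_vl (F A B : P2) (x y : S) : vl (vl F A B) x y = vl F (vl A x y) (vl B x y) :=
  vl_map (eval₂Hom (Int.castRingHom S) ![x, y]) F A B

theorem vl_self (F : P2) : vl F (X 0 : P2) (X 1) = F := by
  have h : (Int.castRingHom P2) = (C : ℤ →+* P2) := RingHom.ext_int _ _
  unfold vl
  rw [h]
  have h2 : (![X 0, X 1] : Fin 2 → P2) = X := by
    funext i
    fin_cases i <;> rfl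
  rw [h2, eval₂_eta]

theorem vl_shf (c : ℕ) (G : P2) (x y : S) : vl (shf c G) x y = vl G (x - c * y) y := by
  unfold shf
  rw [vl_vl, vl_sub, vl_mul, vl_C, vl_X0, vl_X1]
  norm_cast

/-- forms -/
theorem vl_hom {F : P2} {d : ℕ} (hF : ∀ t ∈ F.support, t 0 + t 1 = d) (a x y : S) :
    vl F (a * x) (a * y) = a ^ d * vl F x y := by
  rw [vl_sum, vl_sum, Finset.mul_sum]
  refine Finset.sum_congr rfl fun t ht => ?_
  rw [← hF t ht, mul_pow, mul_pow, pow_add]
  ring

end

/-- `hm` and ring homomorphisms -/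
theorem hm_map {S S' : Type*} [CommRing S] [CommRing S'] (φ : S →+* S') (P : Polynomial ℤ) (e : ℕ)
    (A B : S) : φ (hm P e A B) = hm P e (φ A) (φ B) := by
  unfold hm
  rw [map_sum]
  refine Finset.sum_congr rfl fun l _ => ?_
  rw [map_mul, map_mul, map_pow, map_pow, map_intCast]

theorem hm_mul {S : Type*} [CommRing S] (P : Polynomial ℤ) (e : ℕ) (a A B : S) :
    hm P e (a * A) (a * B) = a ^ e * hm P e A B := by
  unfold hm
  rw [Finset.mul_sum]
  refine Finset.sum_congr rfl fun l hl => ?_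
  rw [Finset.mem_range] at hl
  have h : a ^ e = a ^ l * a ^ (e - l) := by
    rw [← pow_add]
    congr 1
    omega
  rw [h, mul_pow, mul_pow]
  ring

theorem hm_one {S : Type*} [CommRing S] {P : Polynomial ℤ} {e : ℕ} (h : P.natDegree ≤ e) (A : S) :
    hm P e A 1 = Polynomial.eval₂ (Int.castRingHom S) A P := by
  unfold hm
  rw [Polynomial.eval₂_eq_sum_range' _ (Nat.lt_succ_of_le h)]
  refine Finset.sum_congr rfl fun l _ => ?_
  rw [one_pow, mul_one, eq_intCast]

theorem vl_hm {S : Type*} [CommRing S] (P : Polynomial ℤ) (e : ℕ) (A B : P2) (x y : S) :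
    vl (hm P e A B) x y = hm P e (vl A x y) (vl B x y) :=
  hm_map (eval₂Hom (Int.castRingHom S) ![x, y]) P e A B

theorem hom_supp {F : P2} {d : ℕ} (hF : F.IsHomogeneous d) : ∀ t ∈ F.support, t 0 + t 1 = d := by
  intro t ht
  have h := hF (mem_support_iff.1 ht)
  rw [Finsupp.weight_apply, Finsupp.sum_fintype _ _ (fun i => by simp)] at h
  rw [Fin.sum_univ_two] at h
  simpa using h

theorem supp_hom {F : P2} {d : ℕ} (hF : ∀ t ∈ F.support, t 0 + t 1 = d) : F.IsHomogeneous d := by
  intro t ht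
  have h := hF t (mem_support_iff.2 ht)
  rw [Finsupp.weight_apply, Finsupp.sum_fintype _ _ (fun i => by simp), Fin.sum_univ_two]
  simpa using h

/-- the product of two forms -/
theorem mul_hom {F G : P2} {d e : ℕ} (hF : ∀ t ∈ F.support, t 0 + t 1 = d)
    (hG : ∀ t ∈ G.support, t 0 + t 1 = e) : ∀ t ∈ (F * G).support, t 0 + t 1 = d + e :=
  hom_supp ((supp_hom hF).mul (supp_hom hG))

end Pool.Agent.H98.AL
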