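import Pool.Agent.H69.AL.CodeC

/-!
# [H98 AL LST] Integer polynomials in one variable as lists of integers
-/

namespace Pool.Agent.H98.AL

open Polynomial Pool.Agent.H8.Siegel Pool.Agent.H69.AL

/-- the polynomial with the list of coefficients `c` -/
noncomputable def polyOf (c : List ℤ) : ℤ[X] :=
  ∑ i ∈ Finset.range c.length, C (c.getD i 0) * X ^ i

theorem polyOf_nil : polyOf [] = 0 := rfl

theorem polyOf_cons (a : ℤ) (c : List ℤ) : polyOf (a :: c) = C a + X * polyOf c := by
  unfold polyOf
  rw [List.length_cons, Finset.sum_range_succ', Finset.mul_sum, add_comm]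
  congr 1
  · simp
  · refine Finset.sum_congr rfl fun i _ => ?_
    rw [List.getD_cons_succ, pow_succ]
    ring

/-- every integer polynomial is given by a list -/
theorem exists_list (q : ℤ[X]) : ∃ c : List ℤ, polyOf c = q := by
  refine ⟨(List.range (q.natDegree + 1)).map q.coeff, ?_⟩
  unfold polyOf
  rw [List.length_map, List.length_range]
  conv_rhs => rw [q.as_sum_range_C_mul_X_pow]
  refine Finset.sum_congr rfl fun i hi => ?_
  rw [Finset.mem_range] at hi
  rw [List.getD_eq_getElem _ _ (by simpa using hi)]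
  simp

/-- the code of the polynomial -/
def toC (c : List ℤ) : Code :=
  c.foldr (fun a r => (a.toNat, (-a).toNat, 0, 0) :: r.map fun t => (t.1, t.2.1, t.2.2.1 + 1, 0)) []

theorem uni_toC (c : List ℤ) : uni (toC c) = polyOf c := by
  induction c with
  | nil => rfl
  | cons a c ih =>
    have h : toC (a :: c) = (a.toNat, (-a).toNat, 0, 0) ::
      (toC c).map fun t => (t.1, t.2.1, t.2.2.1 + 1, 0) := rfl
    have h2 : ∀ d : Code, uni (d.map fun t => (t.1, t.2.1, t.2.2.1 + 1, 0)) = X * uni d := by
      intro d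
      induction d with
      | nil => simp
      | cons t d ihd =>
        rw [List.map_cons, uni_cons, uni_cons, ihd, mul_add]
        congr 1
        unfold uterm
        rw [pow_succ]
        ring
    rw [h, uni_cons, h2, ih, polyOf_cons]
    congr 1
    have h3 : ((a.toNat : ℕ) : ℤ) - (((-a).toNat : ℕ) : ℤ) = a := by omega
    change C (((a.toNat : ℕ) : ℤ) - (((-a).toNat : ℕ) : ℤ)) * X ^ 0 = C a
    rw [h3, pow_zero, mul_one]

theorem enc_ofNat (n : ℕ) : Encodable.encode (Int.ofNat n) = 2 * n := by
  change Equiv.intEquivNat (Int.ofNat n) = 2 * n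
  rw [Equiv.intEquivNat, Equiv.trans_apply, Equiv.natSumNatEquivNat_apply]
  rfl

theorem enc_negSucc (n : ℕ) : Encodable.encode (Int.negSucc n) = 2 * n + 1 := by
  change Equiv.intEquivNat (Int.negSucc n) = 2 * n + 1
  rw [Equiv.intEquivNat, Equiv.trans_apply, Equiv.natSumNatEquivNat_apply]
  rfl

theorem primrec_toNat : Primrec fun z : ℤ => z.toNat := by
  have h : Primrec fun n : ℕ => if n % 2 = 0 then n / 2 else 0 :=
    Primrec.ite (Primrec.eq.comp (Primrec.nat_mod.comp Primrec.id (Primrec.const 2))
      (Primrec.const 0)) (Primrec.nat_div.comp Primrec.id (Primrec.const 2)) (Primrec.const 0)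
  refine (h.comp Primrec.encode).of_eq fun z => ?_
  cases z with
  | ofNat n =>
    rw [enc_ofNat, if_pos (by omega)]
    simp
  | negSucc n =>
    rw [enc_negSucc, if_neg (by omega)]
    rfl

theorem primrec_negToNat : Primrec fun z : ℤ => (-z).toNat := by
  have h : Primrec fun n : ℕ => if n % 2 = 0 then 0 else n / 2 + 1 :=
    Primrec.ite (Primrec.eq.comp (Primrec.nat_mod.comp Primrec.id (Primrec.const 2))
      (Primrec.const 0)) (Primrec.const 0)
      (Primrec.succ.comp (Primrec.nat_div.comp Primrec.id (Primrec.const 2)))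
  refine (h.comp Primrec.encode).of_eq fun z => ?_
  cases z with
  | ofNat n =>
    rw [enc_ofNat, if_pos (by omega)]
    simp
  | negSucc n =>
    rw [enc_negSucc, if_neg (by omega)]
    change (2 * n + 1) / 2 + 1 = n + 1
    omega

theorem primrec_toC : Primrec toC := by
  unfold toC
  refine Primrec.list_foldr (f := fun c : List ℤ => c) (g := fun _ => ([] : Code))
    (h := fun (_ : List ℤ) (b : ℤ × Code) => (b.1.toNat, (-b.1).toNat, 0, 0) ::
      b.2.map fun t => (t.1, t.2.1, t.2.2.1 + 1, 0)) Primrec.id (Primrec.const _) ?_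
  have h1 : Primrec fun p : List ℤ × (ℤ × Code) => p.2.1 := Primrec.fst.comp Primrec.snd
  have h2 : Primrec fun p : List ℤ × (ℤ × Code) => p.2.2 := Primrec.snd.comp Primrec.snd
  refine Primrec.list_cons.comp ?_ (Primrec.list_map h2 ?_)
  · exact Primrec.pair (primrec_toNat.comp h1) (Primrec.pair (primrec_negToNat.comp h1)
      (Primrec.const (0, 0)))
  · have h3 : Primrec fun p : (List ℤ × (ℤ × Code)) × (ℕ × ℕ × ℕ × ℕ) => p.2 := Primrec.snd
    exact Primrec.pair (Primrec.fst.comp h3) (Primrec.pair (Primrec.fst.comp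
      (Primrec.snd.comp h3)) (Primrec.pair (Primrec.succ.comp (Primrec.fst.comp
        (Primrec.snd.comp (Primrec.snd.comp h3)))) (Primrec.const 0)))

end Pool.Agent.H98.AL
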