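import Pool.Agent.H98.AL.Sound
import Pool.Agent.H98.AL.Complete
import Pool.Agent.H98.AL.LST
import Pool.Agent.H37.AL.WinQ
import Pool.Agent.H69.AL.Lev

/-!
# [H98 AL LEV] The decidable exceptional triples
-/

namespace Pool.Agent.H98.AL

open Pool.Agent.H8.Siegel Pool.Agent.H69.AL Pool.Agent.H37.AL

/-- the threshold exponent at the level `N` -/
def C1 (N : ℕ) : ℕ := (2 * (N + 1) ^ 2 + 1) * 2 ^ ((2 * N ^ 2) ^ (2 * N ^ 2))

theorem CA_le_C1 (N : ℕ) : CA N ≤ C1 N := by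
  unfold CA C1
  exact Nat.mul_le_mul_left _ (Nat.pow_le_pow_right (by norm_num) (Nat.factorial_le_pow _))

theorem primrec_2sq : Primrec fun N : ℕ => 2 * N ^ 2 :=
  Primrec.nat_mul.comp (Primrec.const 2) (primrec_pow.comp Primrec.id (Primrec.const 2))

theorem primrec_C0 : Primrec fun N : ℕ => 2 * (N + 1) ^ 2 + 1 :=
  Primrec.succ.comp (Primrec.nat_mul.comp (Primrec.const 2)
    (primrec_pow.comp Primrec.succ (Primrec.const 2)))

theorem primrec_C1 : Primrec C1 :=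
  Primrec.nat_mul.comp primrec_C0 (primrec_pow.comp (Primrec.const 2)
    (primrec_pow.comp primrec_2sq primrec_2sq))

theorem vl_eval (G : P2) (x y : ℤ) : vl G x y = MvPolynomial.eval ![x, y] G := by
  unfold vl
  rw [← MvPolynomial.eval₂_id]
  congr 1

theorem sz_max (x y : ℤ) : ((sz x y : ℕ) : ℤ) = max |x| |y| := by
  rw [sz, Int.abs_eq_natAbs, Int.abs_eq_natAbs]
  push_cast
  rfl

theorem exists_lev : ∃ (T : Type) (_ : Primcodable T) (lev : Code → ℕ → T → Bool) (sz' : T → ℕ),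
    (Primrec fun p : Code × ℕ × T => lev p.1 p.2.1 p.2.2) ∧ Primrec sz' ∧
    (∀ c N t, lev c N t = true → uni c ≠ 0 → ExcQ (uni c) N (C1 N) (sz' t)) ∧
    ∀ (c : Code) (N : ℕ) (G : P2) (H : ℕ) (x y : ℤ),
      Irreducible (MvPolynomial.map (Int.castRingHom ℚ) G) → Star (uni c) G →
      G.totalDegree ≤ N → (∀ t, |MvPolynomial.coeff t G| ≤ (H : ℤ)) → 2 ≤ H → vl G x y = 0 →
      H ^ C1 N < sz x y → ∃ t, lev c N t = true ∧ sz' t = sz x y := by
  refine ⟨Trip, inferInstance, Pool.Agent.H69.AL.lev C1, szT, primrec_lev C1 primrec_C1,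
    primrec_szT, ?_, ?_⟩
  · intro c N t ht hc
    obtain ⟨G, H, x, y, h1, h2, h3, h4, h5, h6, h7⟩ :=
      levP_sound ((lev_iff C1 c N t).1 ht) (fun h => sound hc h)
    refine ⟨G, H, x, y, h1, h2, h3, h4, ?_, ?_, h7⟩
    · rw [vl_eval, h5]
    · have h8 : ((szT t : ℕ) : ℤ) = ((sz x y : ℕ) : ℤ) := by rw [h6, sz_max]
      exact_mod_cast h8
  · intro c N G H x y hirr hs hdeg hH hH2 h0 hbig
    obtain ⟨t, ht, hts⟩ := levP_complete (C := C1) (q := c) (N := N) (G := G) (x := x) (y := y)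
      (complete hirr hs) hdeg (by rw [← vl_eval, h0]) hH2 hH (by
        rw [← sz_max]
        exact_mod_cast hbig)
    refine ⟨t, (lev_iff C1 c N t).2 ht, ?_⟩
    have h8 : ((szT t : ℕ) : ℤ) = ((sz x y : ℕ) : ℤ) := by rw [hts, sz_max]
    exact_mod_cast h8

end Pool.Agent.H98.AL
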