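import Pool.Agent.H98.AL.GEN
import Pool.Agent.H34.AC.KapB
import Pool.Agent.H34.AC.Inf1

/-!
# [H98 AL] Completeness: definitions and the general lemmas

`iq : ℤ[u] → ℚ[[u]]`. `INFQ q f`: every `K[[τ]]`-point of `f(u, Z)` over `u = r τ^e`, `K` a number field with a real
embedding, gives a zero of `q` in `K`.
-/

namespace Pool.Agent.H98.AL

open Polynomial Pool.Agent.H72.ES Pool.Agent.H87.SA2 Pool.Agent.H97.XC Pool.Agent.H34.AC

/-- every `K[[τ]]`-point of `f` over `u = r τ^e`, `K` with a real embedding, gives a zero of `q` in `K` -/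
def INFQ (q : ℤ[X]) (f : ℤ[X][X]) : Prop :=
  ∀ (K : Type) [Field K] [NumberField K], Nonempty (K →+* ℝ) → ∀ (r : K) (e : ℕ)
    (x : PowerSeries K), r ≠ 0 → 1 ≤ e → (f.map (tQ K r e)).eval x = 0 → ∃ z : K, aeval z q = 0

/-- `ℤ[u] → ℚ[[u]]` -/
noncomputable def iq : ℤ[X] →+* PowerSeries ℚ :=
  eval₂RingHom (Int.castRingHom (PowerSeries ℚ)) PowerSeries.X

/-- `q(θ) p(θ) = 0` and `hm` -/
theorem hm_root {S : Type*} [CommRing S] {P : ℤ[X]} {e : ℕ} (h : P.natDegree ≤ e) {θ : S}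
    (hθ : eval₂ (Int.castRingHom S) θ P = 0) (c : S) : hm P e (c * θ) c = 0 := by
  have h1 := hm_mul P e c θ 1
  rw [mul_one, hm_one h, hθ, mul_zero] at h1
  exact h1

end Pool.Agent.H98.AL
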