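import Pool.Agent.H63.AL.Unif

/-!
# [H98 AL CHN] The chain dichotomy with one unknown number (variant of `Pool.H63.AL.chain_unif` and
`Pool.Agent.H37.AL.chain_unif3`)

The value for `n` is correct for all `n ≥ N0`; `N0 = 0` if `ρ = r`; if `ρ = 0` no object of a level `N ≥ N0` has
positive size.
-/

namespace Pool.Agent.H98.AL

open Pool.H63.AL

theorem chain_one {Q T : Type*} [Primcodable Q] [Primcodable T] (lev : Q → ℕ → T → Bool)
    (hlev : Primrec fun p : Q × ℕ × T => lev p.1 p.2.1 p.2.2)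
    (sz : T → ℕ) (hsz : Primrec sz) (W C : ℕ → ℕ) (hW : Primrec W) (hC : Primrec C)
    (hW1 : ∀ N, 1 ≤ W N) :
    ∃ A : Q × ℕ × ℕ →. ℕ, Partrec A ∧ ∀ (q : Q) (r : ℕ),
      (∀ N, 3 ≤ N → ∀ l : List T, (∀ t ∈ l, lev q N t = true) →
        (l.Pairwise fun s t => sz t ^ W N < sz s) → l.length ≤ r) →
      ∃ ρ ≤ r, ∃ N0, (ρ = r → N0 = 0) ∧
        (ρ = 0 → ∀ N, N0 ≤ N → 3 ≤ N → ∀ t, lev q N t = true → sz t = 0) ∧
        ∀ n, ∃ B ∈ A (q, ρ, n), N0 ≤ n → ∃ N, n ≤ N ∧ 3 ≤ N ∧ C N ≤ B ∧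
          ∀ t, lev q N t = true → sz t ≤ B := by
  classical
  let A : Q × ℕ × ℕ →. ℕ := fun z =>
    (psq (sc lev sz W) (z.1, (z.2.1, 0), z.2.2)).map fun o => val sz W C 2 o
  refine ⟨A, ?_, ?_⟩
  · have h1 : Computable fun z : Q × ℕ × ℕ => ((z.1, (z.2.1, 0), z.2.2) : In Q) :=
      (Primrec.pair Primrec.fst (Primrec.pair (Primrec.pair (Primrec.fst.comp Primrec.snd)
        (Primrec.const 0)) (Primrec.snd.comp Primrec.snd))).to_comp
    refine Partrec.map ((psq_partrec _ (sc_comp lev hlev sz hsz W hW).to_comp).comp h1) ?_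
    exact ((val_comp sz hsz W C hW hC).to_comp).comp (Computable.const 2) Computable.snd
  intro q r hr
  let P : ℕ → Prop := fun ρ => ∀ n, ∃ N, n ≤ N ∧ ∃ l : List T, l.length = ρ ∧
    (chk (lev q) sz W N l).1 = true
  have hP0 : P 0 := fun n => ⟨n, le_rfl, [], rfl, rfl⟩
  have hPr : ∀ ρ, P ρ → ρ ≤ r := by
    intro ρ h
    obtain ⟨N, hN, l, hl, hc⟩ := h 3
    obtain ⟨h1, h2, _⟩ := chk_sound (lev q) sz W N (hW1 N) l hc
    have := hr N hN l h1 h2
    omega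
  obtain ⟨ρ, hρ, hρ'⟩ : ∃ ρ, P ρ ∧ ¬ P (ρ + 1) := by
    by_contra hcon
    push Not at hcon
    have : ∀ k, P k := fun k => by
      induction k with
      | zero => exact hP0
      | succ k ih => exact hcon k ih
    have := hPr (r + 1) (this _)
    omega
  refine ⟨ρ, hPr ρ hρ, ?_⟩
  obtain ⟨N0, hN00, hN0⟩ : ∃ N0, (ρ = r → N0 = 0) ∧ ∀ N, N0 ≤ N → 3 ≤ N → ∀ l : List T,
      l.length = ρ + 1 → ¬ (chk (lev q) sz W N l).1 = true := by
    by_cases hρr : ρ = r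
    · refine ⟨0, fun _ => rfl, fun N _ hN3 l hl hc => ?_⟩
      obtain ⟨h1, h2, _⟩ := chk_sound (lev q) sz W N (hW1 N) l hc
      have := hr N hN3 l h1 h2
      omega
    · simp only [P] at hρ'
      push Not at hρ'
      obtain ⟨N0, hN0⟩ := hρ'
      exact ⟨N0, fun h => absurd h hρr, fun N hN _ l hl => hN0 N hN l hl⟩
  refine ⟨N0, hN00, ?_, fun n => ?_⟩
  · rintro rfl N hN hN3 t ht
    by_contra h0
    refine hN0 N hN hN3 [t] rfl (chk_cons (lev q) sz W N [] rfl t ht ?_)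
    rw [chk_head]
    have hW0 : W N ≠ 0 := by
      have := hW1 N
      omega
    simp only [List.head?_nil, Option.map_none, Option.getD_none]
    rw [zero_pow hW0]
    omega
  obtain ⟨v, hv, hv'⟩ := psq_spec (sc lev sz W) ((q, (ρ, 0), n) : In Q) (by
    obtain ⟨N, hN, l, hl, hc⟩ := hρ (n + (0 + 3))
    exact ⟨(N, l), by simp [sc, hN, hl, hc]⟩)
  simp only [sc, Bool.and_eq_true, decide_eq_true_eq] at hv'
  obtain ⟨⟨h1, h2⟩, h3⟩ := hv'
  refine ⟨val sz W C 2 (some v), Part.mem_map _ hv, fun hn => ⟨v.1, by omega, by omega,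
    (Nat.lt_two_pow_self (n := C v.1)).le.trans (Nat.le_add_right _ _), fun t ht => ?_⟩⟩
  by_contra hlt
  push Not at hlt
  have hbig : (chk (lev q) sz W v.1 v.2).2 ^ W v.1 < sz t := by
    rw [chk_head]
    exact lt_of_le_of_lt (Nat.le_add_left _ _) hlt
  exact hN0 v.1 (by omega) (by omega) (t :: v.2) (by simp [h2])
    (chk_cons (lev q) sz W _ _ h3 t ht hbig)

end Pool.Agent.H98.AL
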