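import Pool.Agent.H98.AL.Cdf

/-!
# [H98 AL KFR] A root of `f` over the fixed field of the stabiliser of a branch

PROOF. This is the proof of `kap_repK` in `Pool/Agent/H34/AC/KapB.lean` (from `obtain ⟨g, c, hg1, ...⟩ := exists_gc ...` to `hroot`), copied word for
word: it constructs `r`, `e'`, `xh` with `hr0 : r ≠ 0`, `he1 : 1 ≤ e'` and `hroot`.
-/

namespace Pool.Agent.H98.AL

open Polynomial Pool.Agent.H72.ES Pool.Agent.H87.SA2 Pool.Agent.H97.XC Pool.Agent.H34.AC

theorem kf_root {f : ℤ[X][X]} {d e s : ℕ} (he : 1 ≤ e) (hs1 : 1 ≤ s) {ξ : Fin d → PowerSeries AA}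
    (hs : f.map (tKq AA e s) = ∏ i, (X - C (ξ i))) (hinj : Function.Injective ξ) (i : Fin d) :
    ∃ (r : Kf e (ξ i)) (e' : ℕ) (x : PowerSeries (Kf e (ξ i))), r ≠ 0 ∧ 1 ≤ e' ∧
      (f.map (tQ (Kf e (ξ i)) r e')).eval x = 0 := by
  obtain ⟨g, c, hg1, ⟨e', he'⟩, hc, hgm, hgc⟩ := exists_gc e he (ξ i)
  have hfd := Kf_fin hs hinj i
  have hnf : NumberField (Kf e (ξ i)) := { to_charZero := inferInstance, to_finiteDimensional := hfd }
  have hζ0 : ∀ ζ : AA, ζ ^ e = 1 → ζ ≠ 0 := by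
    intro ζ h h0
    rw [h0, zero_pow (by omega)] at h
    exact zero_ne_one h
  -- the coefficients
  have hb : ∀ l, PowerSeries.coeff (g * l) (ξ i) * (c ^ l)⁻¹ ∈ Kf e (ξ i) := by
    intro l σ ζ h1 h2
    have h3 := congrArg (PowerSeries.coeff (g * l)) h2
    rw [coeff_act] at h3
    have h4 := hgc σ ζ h1 h2
    have h5 : ζ ^ (g * l) ≠ 0 := pow_ne_zero _ (hζ0 ζ h1)
    have h6 : σ (c ^ l) * ζ ^ (g * l) = c ^ l := by
      rw [map_pow, pow_mul, ← mul_pow, h4]
    have hσc : σ (c ^ l) ≠ 0 := by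
      rw [Ne, EmbeddingLike.map_eq_zero_iff]
      exact pow_ne_zero _ hc
    rw [map_mul, map_inv₀]
    calc σ (PowerSeries.coeff (g * l) (ξ i)) * (σ (c ^ l))⁻¹
        = (ζ ^ (g * l) * σ (PowerSeries.coeff (g * l) (ξ i))) *
          (σ (c ^ l) * ζ ^ (g * l))⁻¹ := by
          field_simp
      _ = _ := by rw [h3, h6]
  have hr : (s : AA) ^ e * (c ^ e')⁻¹ ∈ Kf e (ξ i) := by
    intro σ ζ h1 h2
    have h4 := hgc σ ζ h1 h2
    have h6 : σ (c ^ e') = c ^ e' := by
      have h7 : σ (c ^ e') * ζ ^ (g * e') = c ^ e' := by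
        rw [map_pow, pow_mul, ← mul_pow, h4]
      rw [← he', h1, mul_one] at h7
      exact h7
    rw [map_mul, map_inv₀, h6, map_pow, map_natCast]
  obtain ⟨r, hrd⟩ : ∃ r : Kf e (ξ i), (r : AA) = (s : AA) ^ e * (c ^ e')⁻¹ := ⟨⟨_, hr⟩, rfl⟩
  obtain ⟨xh, hxh⟩ : ∃ xh : PowerSeries (Kf e (ξ i)), ∀ l,
      algebraMap (Kf e (ξ i)) AA (PowerSeries.coeff l xh) =
      PowerSeries.coeff (g * l) (ξ i) * (c ^ l)⁻¹ :=
    ⟨PowerSeries.mk fun l => ⟨_, hb l⟩, fun l => by rw [PowerSeries.coeff_mk]; rfl⟩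
  have he1 : 1 ≤ e' := by
    rcases Nat.eq_zero_or_pos e' with h0 | h0
    · rw [h0, mul_zero] at he'
      omega
    · exact h0
  have hs0 : (s : AA) ≠ 0 := by
    have : s ≠ 0 := by omega
    exact_mod_cast this
  have hr0 : r ≠ 0 := by
    intro h0
    have h1 : (r : AA) = 0 := by rw [h0]; rfl
    rw [hrd] at h1
    exact mul_ne_zero (pow_ne_zero _ hs0) (inv_ne_zero (pow_ne_zero _ hc)) h1
  -- the embedding in the ring of series in `T`
  obtain ⟨Θ, hΘ⟩ : ∃ Θ : PowerSeries (Kf e (ξ i)) →+* PowerSeries AA,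
      Θ = (exr AA g (by omega)).comp ((PowerSeries.rescale c).comp
        (PowerSeries.map (algebraMap (Kf e (ξ i)) AA))) := ⟨_, rfl⟩
  have hΘc : ∀ (x : PowerSeries (Kf e (ξ i))) (m : ℕ), PowerSeries.coeff m (Θ x) =
      if g ∣ m then c ^ (m / g) * algebraMap (Kf e (ξ i)) AA (PowerSeries.coeff (m / g) x) else 0 := by
    intro x m
    rw [hΘ, RingHom.comp_apply, RingHom.comp_apply, coeff_exr, PowerSeries.coeff_rescale,
      PowerSeries.coeff_map]
  have hΘinj : Function.Injective Θ := by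
    intro x y hxy
    refine PowerSeries.ext fun m => ?_
    have h1 := congrArg (PowerSeries.coeff (g * m)) hxy
    rw [hΘc, hΘc, if_pos (dvd_mul_right g m), if_pos (dvd_mul_right g m),
      Nat.mul_div_cancel_left m (by omega)] at h1
    exact (algebraMap (Kf e (ξ i)) AA).injective (mul_left_cancel₀ (pow_ne_zero m hc) h1)
  have hΘx : Θ xh = ξ i := by
    refine PowerSeries.ext fun m => ?_
    rw [hΘc]
    split_ifs with h
    · obtain ⟨l, rfl⟩ := h
      rw [Nat.mul_div_cancel_left l (by omega), hxh]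
      have := pow_ne_zero l hc
      field_simp
    · by_contra hne
      exact h (hgm m (fun h0 => hne h0.symm))
  have hΘt : Θ.comp (tQ (Kf e (ξ i)) r e') = tKq AA e s := by
    apply Polynomial.ringHom_ext
    · intro a
      simp [tQ, tKq]
    · rw [RingHom.comp_apply, tQ, tKq, coe_eval₂RingHom, coe_eval₂RingHom, eval₂_X, eval₂_X, hΘ,
        RingHom.comp_apply, RingHom.comp_apply, map_mul, map_mul, map_mul, map_pow, map_pow,
        map_pow, PowerSeries.map_C, PowerSeries.map_X]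
      have h1 : algebraMap (Kf e (ξ i)) AA r = (s : AA) ^ e * (c ^ e')⁻¹ := hrd
      have h2 : PowerSeries.rescale c (PowerSeries.C ((s : AA) ^ e * (c ^ e')⁻¹)) =
          PowerSeries.C ((s : AA) ^ e * (c ^ e')⁻¹) := by
        ext m
        rw [PowerSeries.coeff_rescale, PowerSeries.coeff_C]
        split_ifs with h
        · rw [h, pow_zero, one_mul]
        · rw [mul_zero]
      have h3 : exr AA g (by omega) (PowerSeries.C c * PowerSeries.X) =
          PowerSeries.C c * PowerSeries.X ^ g := by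
        rw [RingHom.map_mul, exr_C, exr_X]
      have h4 : (s : AA) ^ e * (c ^ e')⁻¹ * c ^ e' = (s : AA) ^ e := by
        rw [mul_assoc, inv_mul_cancel₀ (pow_ne_zero e' hc), mul_one]
      rw [h1, h2, exr_C, PowerSeries.rescale_X, h3, mul_pow, ← pow_mul, ← he', mul_pow, ← mul_assoc,
        ← RingHom.map_pow, ← RingHom.map_mul, h4, RingHom.map_pow]
  have hroot : (f.map (tQ (Kf e (ξ i)) r e')).eval xh = 0 := by
    apply hΘinj
    rw [map_zero, ← Polynomial.eval₂_at_apply, hΘx, ← Polynomial.eval_map, Polynomial.map_map, hΘt,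
      hs, eval_prod]
    exact Finset.prod_eq_zero (Finset.mem_univ i) (by simp)
  exact ⟨r, e', xh, hr0, he1, hroot⟩

end Pool.Agent.H98.AL
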