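import Pool.Agent.H98.AL.Lev
import Pool.Agent.H63.AL.Unif

/-!
# [H98 AL MAIN] THEOREM ALG
-/

namespace Pool.Agent.H98.AL

open Pool.Agent.H8.Siegel Pool.Agent.H69.AL Pool.Agent.H37.AL

/-- the bound for the integer zeros of the class of `q`, degree at most `n` -/
def Bnd (q : Polynomial ℤ) (n E : ℕ) : Prop :=
  ∀ (H : ℕ) (F : P2), 2 ≤ H → F.totalDegree ≤ n → (∀ t, |MvPolynomial.coeff t F| ≤ (H : ℤ)) →
    Star q F → ∀ x y : ℤ, vl F x y = 0 → sz x y ≤ H ^ E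

theorem unif : ∃ A : Code × (ℕ × ℕ) × (ℕ × ℕ) →. ℕ, Partrec A ∧
    ∀ c : Code, Deg3 (uni c) → ∃ ρ ≤ (RF (uni c)).ncard, ∃ N0, ∀ n,
      ∃ E ∈ A (c, (ρ, N0), (n, 2)), Bnd (uni c) n E := by
  obtain ⟨T, hT, lev, sz', hlev, hsz, h1, h2⟩ := exists_lev
  obtain ⟨A, hA, hA2⟩ := Pool.H63.AL.chain_unif lev hlev sz' hsz (fun N => max 1 (WA N))
    (fun N => (2 * (N + 1) ^ 2 + 1) * C1 N) (Primrec.nat_max.comp (Primrec.const 1) primrec_WA)
    (Primrec.nat_mul.comp primrec_C0 primrec_C1) (fun N => le_max_left _ _)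
  refine ⟨A, hA, fun c hc => ?_⟩
  obtain ⟨ρ, hρ, N0, hN⟩ := hA2 c (RF (uni c)).ncard (by
    intro N hN l hl hp
    have h3 := chain_lenQ hc hN (CA_le_C1 N) (l.map sz') (by
      intro z hz
      rw [List.mem_map] at hz
      obtain ⟨t, ht, rfl⟩ := hz
      exact h1 c N t (hl t ht) hc.1) (by
      rw [List.pairwise_map]
      have h4 : max 1 (WA N) = WA N := by
        apply max_eq_right
        unfold WA
        have h5 : 1 ≤ N ^ 8 := Nat.one_le_pow _ _ (by omega)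
        omega
      rw [h4] at hp
      exact hp)
    rwa [List.length_map] at h3)
  refine ⟨ρ, hρ, N0, fun n => ?_⟩
  obtain ⟨B, hB, N, hnN, hN3, hCB, hlB⟩ := hN n 2
  refine ⟨B, hB, ?_⟩
  intro H F hH2 hdeg hH hstar x y h0
  have hC : (2 * (N + 1) ^ 2 + 1) * C1 N ≤ B :=
    (Nat.lt_two_pow_self (n := (2 * (N + 1) ^ 2 + 1) * C1 N)).le.trans hCB
  obtain ⟨G, hGF, hirr, hGdeg, hGs, hG0, hGH⟩ := fac_star hc hH2 (hdeg.trans hnN) hH hstar h0
  have hH2' : 2 ≤ H ^ (2 * (N + 1) ^ 2 + 1) := by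
    calc 2 ≤ H := hH2
      _ = H ^ 1 := (pow_one H).symm
      _ ≤ _ := Nat.pow_le_pow_right (by omega) (by omega)
  by_cases hbig : (H ^ (2 * (N + 1) ^ 2 + 1)) ^ C1 N < sz x y
  · obtain ⟨t, ht, hts⟩ := h2 c N G _ x y hirr hGs hGdeg hGH hH2' hG0 hbig
    have h3 := hlB t ht
    rw [hts] at h3
    calc sz x y ≤ B := h3
      _ ≤ 2 ^ B := (Nat.lt_two_pow_self (n := B)).le
      _ ≤ H ^ B := Nat.pow_le_pow_left hH2 B
  · rw [not_lt] at hbig
    calc sz x y ≤ (H ^ (2 * (N + 1) ^ 2 + 1)) ^ C1 N := hbig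
      _ = H ^ ((2 * (N + 1) ^ 2 + 1) * C1 N) := (pow_mul _ _ _).symm
      _ ≤ H ^ B := Nat.pow_le_pow_right (by omega) hC

theorem main : ∃ A : List ℤ × (ℕ × ℕ) × ℕ →. ℕ, Partrec A ∧
    ∀ c : List ℤ, Deg3 (polyOf c) → ∃ ρ ≤ (RF (polyOf c)).ncard, ∃ N0, ∀ n,
      ∃ E ∈ A (c, (ρ, N0), n), Bnd (polyOf c) n E := by
  obtain ⟨A, hA, h⟩ := unif
  refine ⟨fun z => A (toC z.1, z.2.1, (z.2.2, 2)), hA.comp ?_, fun c hc => ?_⟩
  · refine Primrec.to_comp ?_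
    exact Primrec.pair (primrec_toC.comp Primrec.fst) (Primrec.pair
      (Primrec.fst.comp Primrec.snd) (Primrec.pair (Primrec.snd.comp Primrec.snd)
        (Primrec.const 2)))
  · have h1 := h (toC c)
    rw [uni_toC] at h1
    exact h1 hc

/-- for one `q`: a computable exponent -/
theorem main_one (q : Polynomial ℤ) (hq : Deg3 q) :
    ∃ E : ℕ → ℕ, Computable E ∧ ∀ n, Bnd q n (E n) := by
  obtain ⟨A, hA, h⟩ := main
  obtain ⟨c, rfl⟩ := exists_list q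
  obtain ⟨ρ, -, N0, hn⟩ := h c hq
  choose E hE hb using hn
  refine ⟨E, ?_, hb⟩
  have h1 : Partrec fun n : ℕ => A (c, (ρ, N0), n) :=
    hA.comp (Primrec.pair (Primrec.const c) (Primrec.pair (Primrec.const (ρ, N0))
      Primrec.id)).to_comp
  refine h1.of_eq fun n => ?_
  exact Part.eq_some_iff.2 (hE n)

end Pool.Agent.H98.AL
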