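import Pool.Agent.H37.AL.Fin3
import Pool.Agent.H98.AL.Chn

/-!
# [H98 AL MAIN2] THEOREM ALG, final form

`A(q, ρ, n)` is defined for all `n` and correct for all `n ≥ N0`; `N0 = 0` if `ρ` is the largest possible number; for
`ρ = 0` the exponent is explicit.
-/

namespace Pool.Agent.H98.AL

open Pool.Agent.H8.Siegel Pool.Agent.H69.AL Pool.Agent.H37.AL

theorem unif4 : ∃ A : Code × ℕ × ℕ →. ℕ, Partrec A ∧
    ∀ c : Code, Deg3 (uni c) → ∃ ρ ≤ (RF (uni c)).ncard, ∃ N0,
      (ρ = (RF (uni c)).ncard → N0 = 0) ∧ ∀ n,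
        ∃ E ∈ A (c, ρ, n), (ρ = 0 → E = CB (max n 3)) ∧ (N0 ≤ n → Bnd (uni c) n E) := by
  obtain ⟨T, hT, lev, sz', hlev, hsz, h1, h2⟩ := exists_lev3
  obtain ⟨A, hA, hA2⟩ := chain_one lev hlev sz' hsz WB CB primrec_WB primrec_CB
    (fun N => Nat.le_add_left 1 _)
  refine ⟨fun z => bif decide (z.2.1 = 0) then Part.some (CB (max z.2.2 3))
    else A (z.1, z.2.1, z.2.2), ?_, fun c hc => ?_⟩
  · have hn : Primrec fun z : Code × ℕ × ℕ => z.2.2 := Primrec.snd.comp Primrec.snd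
    have hr : Primrec fun z : Code × ℕ × ℕ => z.2.1 := Primrec.fst.comp Primrec.snd
    refine Partrec.cond ((Primrec.eq.decide).comp hr (Primrec.const 0)).to_comp ?_ ?_
    · exact ((primrec_CB.comp (Primrec.nat_max.comp hn (Primrec.const 3))).to_comp).partrec
    · exact hA
  obtain ⟨ρ, hρ, N0, hN00, hρ0, hN⟩ := hA2 c (RF (uni c)).ncard (by
    intro N hN l hl hp
    rw [← List.length_map sz']
    refine chain_lenQ hc hN le_rfl (l.map sz') ?_ ?_
    · intro z hz
      rw [List.mem_map] at hz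
      obtain ⟨t, ht, rfl⟩ := hz
      exact h1 c N t (hl t ht)
    · rw [List.pairwise_map]
      refine hp.imp fun {s t} hst => ?_
      refine lt_of_le_of_lt ?_ hst
      rcases Nat.eq_zero_or_pos (sz' t) with h0 | h0
      · rw [h0]
        have hW : WA N ≠ 0 := by
          unfold WA
          positivity
        rw [zero_pow hW]
        exact Nat.zero_le _
      · exact Nat.pow_le_pow_right h0 (Nat.le_succ _))
  -- a zero which is larger than `H ^ CB N` gives an exceptional triple of the level `N`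
  have key : ∀ N n H : ℕ, n ≤ N → ∀ F : P2, 2 ≤ H → F.totalDegree ≤ n →
      (∀ t, |MvPolynomial.coeff t F| ≤ (H : ℤ)) → Star (uni c) F → ∀ x y : ℤ, vl F x y = 0 →
      H ^ CB N < sz x y → ∃ t, lev c N t = true ∧ sz' t = sz x y := by
    intro N n H hnN F hH2 hdeg hH hstar x y h0 hbig
    obtain ⟨G, hGF, hirr, hGdeg, hGs, hG0, hGH⟩ := fac_star hc hH2 (hdeg.trans hnN) hH hstar h0
    have hH2' : 2 ≤ H ^ (2 * (N + 1) ^ 2 + 1) := by
      calc 2 ≤ H := hH2
        _ = H ^ 1 := (pow_one H).symm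
        _ ≤ _ := Nat.pow_le_pow_right (by omega) (by omega)
    refine h2 c N G _ x y hirr hGs hGdeg hGH hH2' hG0 ?_
    rw [← pow_mul]
    exact hbig
  refine ⟨ρ, hρ, N0, hN00, fun n => ?_⟩
  by_cases h0 : ρ = 0
  · refine ⟨CB (max n 3), ?_, fun _ => rfl, ?_⟩
    · simp [h0]
    · intro hn H F hH2 hdeg hH hstar x y hxy
      by_contra hcon
      push Not at hcon
      obtain ⟨t, ht, hts⟩ := key (max n 3) n H (le_max_left _ _) F hH2 hdeg hH hstar x y hxy hcon
      have h4 := hρ0 h0 _ (hn.trans (le_max_left _ _)) (le_max_right _ _) t ht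
      omega
  · obtain ⟨B, hB, hN'⟩ := hN n
    refine ⟨B, ?_, fun h => absurd h h0, ?_⟩
    · simpa [h0] using hB
    · intro hn H F hH2 hdeg hH hstar x y hxy
      obtain ⟨N, hnN, hN3, hCB, hlB⟩ := hN' hn
      by_contra hcon
      push Not at hcon
      obtain ⟨t, ht, hts⟩ := key N n H hnN F hH2 hdeg hH hstar x y hxy
        (lt_of_le_of_lt (Nat.pow_le_pow_right (by omega) hCB) hcon)
      have h3 := hlB t ht
      have h4 : B < H ^ B := lt_of_lt_of_le Nat.lt_two_pow_self (Nat.pow_le_pow_left hH2 B)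
      omega

/-- **THEOREM ALG.** -/
theorem main4 : ∃ A : List ℤ × ℕ × ℕ →. ℕ, Partrec A ∧
    ∀ c : List ℤ, Deg3 (polyOf c) → ∃ ρ ≤ (RF (polyOf c)).ncard, ∃ N0,
      (ρ = (RF (polyOf c)).ncard → N0 = 0) ∧ ∀ n,
        ∃ E ∈ A (c, ρ, n), (ρ = 0 → E = CB (max n 3)) ∧ (N0 ≤ n → Bnd (polyOf c) n E) := by
  obtain ⟨A, hA, h⟩ := unif4
  refine ⟨fun z => A (toC z.1, z.2.1, z.2.2), hA.comp ?_, fun c hc => ?_⟩
  · exact (Primrec.pair (primrec_toC.comp Primrec.fst) (Primrec.pair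
      (Primrec.fst.comp Primrec.snd) (Primrec.snd.comp Primrec.snd))).to_comp
  · have h1 := h (toC c)
    rw [uni_toC] at h1
    exact h1 hc

theorem Bnd.mono {q : Polynomial ℤ} {n n' E : ℕ} (h : Bnd q n' E) (hn : n ≤ n') : Bnd q n E :=
  fun H F hH2 hdeg hH hF x y h0 => h H F hH2 (hdeg.trans hn) hH hF x y h0

end Pool.Agent.H98.AL
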