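import Pool.Agent.H98.AL.GEN

/-!
# [H98 AL PLE] Poles

PROOF. Let `ι = HahnSeries.ofPowerSeries ℤ L`, `n = A.totalDegree`, `g` the coefficient of `y^n`. `ι.range` is a valuation ring
(the elements of order `≥ 0`, i.e. `x = ι z` or (`x ≠ 0` and `x⁻¹ = ι z` with `constantCoeff z = 0`); for `x` not in the range use
`HahnSeries`/`LaurentSeries.powerSeriesPart`, `LaurentSeries.single_order_mul_powerSeriesPart`, order `< 0`).
(1) `X ∉ range`: otherwise `X = ι a` and `Y` is a zero of the polynomial `∑_{t} A_t ι(a)^{t 0} T^{t 1}` with leading coefficient `g ≠ 0`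
(integer, unit in `L`) and coefficients in `ι.range` (the terms with `t 1 = n` have `t 0 = 0` because `t 0 + t 1 ≤ n`): if `Y ∉ range`,
`Y⁻¹ = ι z`, `z(0) = 0`, multiply by `ι z ^ n`: `g = -∑_{t 1 < n} ...` has constant coefficient `0`: contradiction. So `Y ∈ range` too: excluded.
(2) So `X⁻¹ = ι u`, `u ≠ 0`, `u(0) = 0`. Multiply `vl A X Y = 0` by `(ι u)^n`: with `Z = Y / X`: `∑_t A_t (ι u)^{n - t 0 - t 1} Z^{t 1} = 0`, leading
coefficient in `Z` is `g`: as in (1) `Z = ι z`.
-/

namespace Pool.Agent.H98.AL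

open MvPolynomial

private theorem inv_or {L : Type} [Field L] (x : LaurentSeries L) :
    x ∈ (HahnSeries.ofPowerSeries ℤ L).range ∨
      ∃ z : PowerSeries L, PowerSeries.constantCoeff z = 0 ∧
        HahnSeries.ofPowerSeries ℤ L z * x = 1 := by
  by_cases hx : x = 0
  · left
    exact ⟨0, by rw [hx, map_zero]⟩
  rcases le_or_gt 0 x.order with h | h
  · left
    obtain ⟨n, hn⟩ := Int.eq_ofNat_of_zero_le h
    exact ⟨_, LaurentSeries.X_order_mul_powerSeriesPart hn.symm⟩
  · right
    have hx' : x⁻¹ ≠ 0 := inv_ne_zero hx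
    have h1 : x⁻¹.order + x.order = 0 := by
      rw [← HahnSeries.order_mul hx' hx, inv_mul_cancel₀ hx, HahnSeries.order_one]
    obtain ⟨n, hn⟩ := Int.eq_ofNat_of_zero_le (show 0 ≤ x⁻¹.order by omega)
    refine ⟨PowerSeries.X ^ n * LaurentSeries.powerSeriesPart x⁻¹, ?_, ?_⟩
    · have hn1 : n ≠ 0 := by omega
      rw [map_mul, map_pow, PowerSeries.constantCoeff_X, zero_pow hn1, zero_mul]
    · rw [LaurentSeries.X_order_mul_powerSeriesPart hn.symm, inv_mul_cancel₀ hx]

private theorem deg_le {A : P2} {t : Fin 2 →₀ ℕ} (ht : t ∈ A.support) :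
    t 0 + t 1 ≤ A.totalDegree := by
  have h1 := le_totalDegree ht
  rw [Finsupp.sum_fintype _ _ (fun _ => rfl), Fin.sum_univ_two] at h1
  exact h1

/-- a sum with only one term of order zero -/
private theorem lead_ne {L : Type} [Field L] [CharZero L] {A : P2}
    (hlc : coeff (Finsupp.single 1 A.totalDegree) A ≠ 0)
    (f : (Fin 2 →₀ ℕ) → PowerSeries L)
    (hf : PowerSeries.constantCoeff (f (Finsupp.single 1 A.totalDegree)) = 1)
    {w : PowerSeries L} (hw : PowerSeries.constantCoeff w = 0) :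
    ∑ t ∈ A.support, ((coeff t A : ℤ) : PowerSeries L) *
      (f t * w ^ (A.totalDegree - t 1)) ≠ 0 := by
  intro h
  have h1 := congrArg (PowerSeries.constantCoeff (R := L)) h
  rw [map_sum, map_zero, Finset.sum_eq_single (Finsupp.single 1 A.totalDegree)] at h1
  · rw [map_mul, map_mul, hf, map_intCast, Finsupp.single_eq_same, Nat.sub_self, pow_zero,
      map_one, mul_one, mul_one] at h1
    exact hlc (by exact_mod_cast h1)
  · intro t ht hne
    have h2 := deg_le ht
    have h3 : t 1 ≠ A.totalDegree := by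
      intro h4
      apply hne
      ext i
      fin_cases i
      · show t 0 = Finsupp.single 1 A.totalDegree 0
        rw [Finsupp.single_eq_of_ne (by decide)]
        omega
      · show t 1 = Finsupp.single 1 A.totalDegree 1
        rw [Finsupp.single_eq_same]
        exact h4
    rw [map_mul, map_mul, map_pow, hw, zero_pow (by omega), mul_zero, mul_zero]
  · intro h2
    exact absurd (mem_support_iff.2 hlc) h2

theorem pole {L : Type} [Field L] [CharZero L] {A : P2} (hA : 1 ≤ A.totalDegree)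
    (hlc : coeff (Finsupp.single 1 A.totalDegree) A ≠ 0) {X Y : LaurentSeries L} (h : vl A X Y = 0)
    (hno : ¬ (X ∈ (HahnSeries.ofPowerSeries ℤ L).range ∧ Y ∈ (HahnSeries.ofPowerSeries ℤ L).range)) :
    ∃ u z : PowerSeries L, PowerSeries.constantCoeff u = 0 ∧
      HahnSeries.ofPowerSeries ℤ L u * X = 1 ∧ Y = HahnSeries.ofPowerSeries ℤ L z * X := by
  have hX : X ∉ (HahnSeries.ofPowerSeries ℤ L).range := by
    rintro ⟨a, rfl⟩
    have hY : Y ∉ (HahnSeries.ofPowerSeries ℤ L).range := fun hY => hno ⟨⟨a, rfl⟩, hY⟩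
    rcases inv_or Y with h1 | ⟨z, hz, hzY⟩
    · exact hY h1
    refine lead_ne hlc (fun t => a ^ t 0) ?_ hz ?_
    · rw [Finsupp.single_eq_of_ne (by decide), pow_zero, map_one]
    · apply HahnSeries.ofPowerSeries_injective (Γ := ℤ) (R := L)
      have h2 : vl A (HahnSeries.ofPowerSeries ℤ L a) Y *
          HahnSeries.ofPowerSeries ℤ L z ^ A.totalDegree = 0 := by rw [h, zero_mul]
      rw [map_zero, ← h2, vl_sum, Finset.sum_mul, map_sum]
      refine Finset.sum_congr rfl fun t ht => ?_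
      have h3 := deg_le ht
      rw [map_mul, map_mul, map_pow, map_pow, map_intCast]
      generalize HahnSeries.ofPowerSeries ℤ L a = B
      generalize HahnSeries.ofPowerSeries ℤ L z = Z at hzY ⊢
      have hD : A.totalDegree = t 1 + (A.totalDegree - t 1) := by omega
      calc ((coeff t A : ℤ) : LaurentSeries L) * (B ^ t 0 * Z ^ (A.totalDegree - t 1))
          = ((coeff t A : ℤ) : LaurentSeries L) * (B ^ t 0 * Z ^ (A.totalDegree - t 1)) *
              (Z * Y) ^ t 1 := by rw [hzY, one_pow, mul_one]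
        _ = ((coeff t A : ℤ) : LaurentSeries L) * (B ^ t 0 * Y ^ t 1) *
              Z ^ (t 1 + (A.totalDegree - t 1)) := by ring
        _ = ((coeff t A : ℤ) : LaurentSeries L) * (B ^ t 0 * Y ^ t 1) * Z ^ A.totalDegree := by
            rw [← hD]
  rcases inv_or X with h1 | ⟨u, hu, huX⟩
  · exact absurd h1 hX
  obtain ⟨Z, hZdef⟩ : ∃ Z : LaurentSeries L, Z = Y * HahnSeries.ofPowerSeries ℤ L u := ⟨_, rfl⟩
  have hYZ : Y = Z * X := by
    rw [hZdef, mul_assoc, huX, mul_one]
  rcases inv_or Z with ⟨z, hz⟩ | ⟨w, hw, hwZ⟩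
  · exact ⟨u, z, hu, huX, by rw [hYZ, ← hz]⟩
  exfalso
  refine lead_ne hlc (fun t => u ^ (A.totalDegree - (t 0 + t 1))) ?_ hw ?_
  · rw [Finsupp.single_eq_of_ne (by decide), Finsupp.single_eq_same, zero_add, Nat.sub_self,
      pow_zero, map_one]
  · apply HahnSeries.ofPowerSeries_injective (Γ := ℤ) (R := L)
    have h2 : vl A X Y * HahnSeries.ofPowerSeries ℤ L u ^ A.totalDegree *
        HahnSeries.ofPowerSeries ℤ L w ^ A.totalDegree = 0 := by rw [h, zero_mul, zero_mul]
    rw [map_zero, ← h2, vl_sum, Finset.sum_mul, Finset.sum_mul, map_sum]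
    refine Finset.sum_congr rfl fun t ht => ?_
    have h3 := deg_le ht
    rw [map_mul, map_mul, map_pow, map_pow, map_intCast, hYZ]
    generalize HahnSeries.ofPowerSeries ℤ L u = U at huX ⊢
    generalize HahnSeries.ofPowerSeries ℤ L w = W at hwZ ⊢
    have hD : A.totalDegree = t 1 + (A.totalDegree - t 1) := by omega
    have hD' : A.totalDegree = (t 0 + t 1) + (A.totalDegree - (t 0 + t 1)) := by omega
    calc ((coeff t A : ℤ) : LaurentSeries L) * (U ^ (A.totalDegree - (t 0 + t 1)) *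
          W ^ (A.totalDegree - t 1))
        = ((coeff t A : ℤ) : LaurentSeries L) * (U ^ (A.totalDegree - (t 0 + t 1)) *
          W ^ (A.totalDegree - t 1)) * (W * Z) ^ t 1 * (U * X) ^ (t 0 + t 1) := by
          rw [hwZ, huX, one_pow, one_pow, mul_one, mul_one]
      _ = ((coeff t A : ℤ) : LaurentSeries L) * (X ^ t 0 * (Z * X) ^ t 1) *
            U ^ ((t 0 + t 1) + (A.totalDegree - (t 0 + t 1))) *
            W ^ (t 1 + (A.totalDegree - t 1)) := by ring
      _ = ((coeff t A : ℤ) : LaurentSeries L) * (X ^ t 0 * (Z * X) ^ t 1) *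
            U ^ A.totalDegree * W ^ A.totalDegree := by rw [← hD, ← hD']

end Pool.Agent.H98.AL
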