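import Pool.Agent.H98.AL.GEN

/-!
# [H98 AL SHF] A shear with a non-zero coefficient of `y^n`

PROOF. Let `n = G.totalDegree`. `n ≥ 1`: otherwise `G = C a`, `map G = C a` is zero or a unit. For every `c` the coefficient of `y^n` in
`shf c G = G(x - c y, y)` is `∑_{t ∈ G.support, t 0 + t 1 = n} G_t (-c)^(t 0)` and `(shf c G).totalDegree ≤ n` (expand `vl_sum` and
`(x - c y)^i = ∑ ...`; e.g. `totalDegree` of `(X 0 - C c * X 1)^i * X 1^j` is `≤ i + j`; for the coefficient: the coefficient of `y^n` of a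
polynomial `B` is the coefficient of `T^n` of `B(0, T)` (`MvPolynomial.aeval ![0, T] : P2 → ℤ[T]`), and
`(shf c G)(0, T) = G(-c T, T)` by `vl_shf`, whose coefficient of `T^n` is the sum above). The polynomial
`h(T) = ∑_{t ∈ G.support, t 0 + t 1 = n} G_t (-T)^(t 0) ∈ ℤ[T]` is not zero (the exponents `t 0` are distinct for distinct `t` with
`t 0 + t 1 = n`, and there is one such `t`: `MvPolynomial.exists_coeff...`/`Finset.exists_mem_eq_sup` for `totalDegree`), so it has finitely many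
zeros and there is `c : ℕ` with `h(c) ≠ 0`. Then `(shf c G).totalDegree = n` (`≥` from the non-zero coefficient).
Irreducible: `Φ : MvPolynomial (Fin 2) ℚ ≃+* MvPolynomial (Fin 2) ℚ`, `x ↦ x - c y, y ↦ y`, inverse `x ↦ x + c y` (`RingEquiv.ofRingHom`, as
`exists_iso` in `Pool/Agent/H34/AC/Irr.lean`), `map (shf c G) = Φ (map G)`, `MulEquiv.irreducible_iff`.
-/

namespace Pool.Agent.H98.AL

open MvPolynomial

private theorem deg_supp {G : P2} {t : Fin 2 →₀ ℕ} (ht : t ∈ G.support) :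
    t 0 + t 1 ≤ G.totalDegree := by
  have h := le_totalDegree ht
  rwa [Finsupp.sum_fintype _ _ (fun _ => rfl), Fin.sum_univ_two] at h

private theorem deg_shf (c : ℕ) (G : P2) : (shf c G).totalDegree ≤ G.totalDegree := by
  unfold shf
  rw [vl_sum]
  refine totalDegree_finsetSum_le fun t ht => ?_
  have h0 : ((coeff t G : ℤ) : P2) = C (coeff t G) := (eq_intCast (C : ℤ →+* P2) _).symm
  have hA : (X 0 - C (c : ℤ) * X 1 : P2).totalDegree ≤ 1 := by
    refine (totalDegree_sub _ _).trans (max_le (totalDegree_X _).le ?_)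
    refine (totalDegree_mul _ _).trans ?_
    rw [totalDegree_C, totalDegree_X]
  have h1 := totalDegree_pow (X 0 - C (c : ℤ) * X 1 : P2) (t 0)
  have h2 := totalDegree_pow (X 1 : P2) (t 1)
  have h3 := totalDegree_mul ((X 0 - C (c : ℤ) * X 1 : P2) ^ t 0) ((X 1 : P2) ^ t 1)
  have h4 := totalDegree_mul ((coeff t G : ℤ) : P2)
    ((X 0 - C (c : ℤ) * X 1 : P2) ^ t 0 * (X 1 : P2) ^ t 1)
  rw [h0, totalDegree_C] at h4
  rw [totalDegree_X] at h2
  have h5 := deg_supp ht
  have h6 : t 0 * (X 0 - C (c : ℤ) * X 1 : P2).totalDegree ≤ t 0 * 1 :=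
    Nat.mul_le_mul_left _ hA
  rw [h0]
  omega

private theorem coeff_y (B : P2) (n : ℕ) :
    (vl B (0 : Polynomial ℤ) Polynomial.X).coeff n = coeff (Finsupp.single 1 n) B := by
  rw [vl_sum, Polynomial.finsetSum_coeff]
  have h : ∀ t : Fin 2 →₀ ℕ, t ≠ Finsupp.single 1 n →
      (((coeff t B : ℤ) : Polynomial ℤ) * ((0 : Polynomial ℤ) ^ t 0 * Polynomial.X ^ t 1)).coeff n
        = 0 := by
    intro t ht
    by_cases h0 : t 0 = 0
    · rw [h0, pow_zero, one_mul, ← Polynomial.C_eq_intCast, Polynomial.coeff_C_mul_X_pow, if_neg]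
      intro h1
      apply ht
      ext i
      fin_cases i
      · simpa using h0
      · simpa using h1.symm
    · rw [zero_pow h0, zero_mul, mul_zero, Polynomial.coeff_zero]
  rw [Finset.sum_eq_single (Finsupp.single 1 n)]
  · rw [← Polynomial.C_eq_intCast]
    simp
  · intro t _ ht
    exact h t ht
  · intro h1
    rw [notMem_support_iff] at h1
    rw [h1]
    simp

private theorem coeff_shf (c : ℕ) (G : P2) (n : ℕ) :
    coeff (Finsupp.single 1 n) (shf c G) =
      (∑ t ∈ G.support.filter (fun t : Fin 2 →₀ ℕ => t 0 + t 1 = n),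
        Polynomial.C (coeff t G) * Polynomial.X ^ t 0).eval (-(c : ℤ)) := by
  rw [← coeff_y, vl_shf, vl_sum, Polynomial.finsetSum_coeff, Polynomial.eval_finsetSum,
    Finset.sum_filter]
  refine Finset.sum_congr rfl fun t _ => ?_
  have h1 : ((coeff t G : ℤ) : Polynomial ℤ) *
      ((0 - (c : Polynomial ℤ) * Polynomial.X) ^ t 0 * Polynomial.X ^ t 1) =
      Polynomial.C (coeff t G * (-(c : ℤ)) ^ t 0) * Polynomial.X ^ (t 0 + t 1) := by
    have hC : ∀ a : ℤ, (a : Polynomial ℤ) = Polynomial.C a :=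
      fun a => (eq_intCast (Polynomial.C : ℤ →+* Polynomial ℤ) a).symm
    have hc : (c : Polynomial ℤ) = Polynomial.C (c : ℤ) := by
      rw [← hC, Int.cast_natCast]
    rw [hC, hc, Polynomial.C_mul, Polynomial.C_pow, Polynomial.C_neg, pow_add]
    have h2 : (0 - Polynomial.C (c : ℤ) * Polynomial.X) =
        (-Polynomial.C (c : ℤ)) * Polynomial.X := by
      ring
    rw [h2, mul_pow]
    ring
  rw [h1, Polynomial.coeff_C_mul_X_pow]
  split_ifs with h3 h4 h4
  · rw [Polynomial.eval_mul, Polynomial.eval_C, Polynomial.eval_pow, Polynomial.eval_X]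
  · exact absurd h3.symm h4
  · exact absurd h4.symm h3
  · rfl

private theorem deg_pos {G : P2} (hG : Irreducible (map (Int.castRingHom ℚ) G)) :
    1 ≤ G.totalDegree := by
  by_contra hn
  have h0 : G.totalDegree = 0 := by omega
  rw [totalDegree_eq_zero_iff_eq_C] at h0
  rw [h0, map_C] at hG
  by_cases h1 : (Int.castRingHom ℚ) (coeff 0 G) = 0
  · rw [h1, C_0] at hG
    exact not_irreducible_zero hG
  · exact hG.not_isUnit ((isUnit_iff_ne_zero.2 h1).map C)

private theorem top_ne {G : P2} (hG : G ≠ 0) :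
    (∑ t ∈ G.support.filter (fun t : Fin 2 →₀ ℕ => t 0 + t 1 = G.totalDegree),
        Polynomial.C (coeff t G) * Polynomial.X ^ t 0 : Polynomial ℤ) ≠ 0 := by
  obtain ⟨s, hs, hs1⟩ : ∃ s ∈ G.support, s 0 + s 1 = G.totalDegree := by
    have h := Finset.exists_mem_eq_sup G.support (support_nonempty.2 hG)
      (fun s => s.sum fun _ e => e)
    obtain ⟨s, hs, h1⟩ := h
    refine ⟨s, hs, ?_⟩
    rw [Finsupp.sum_fintype _ _ (fun _ => rfl), Fin.sum_univ_two] at h1
    rw [← h1]
    rfl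
  intro h
  have h1 := congrArg (fun p => Polynomial.coeff p (s 0)) h
  simp only [Polynomial.finsetSum_coeff, Polynomial.coeff_zero] at h1
  rw [Finset.sum_eq_single s] at h1
  · rw [Polynomial.coeff_C_mul_X_pow, if_pos rfl] at h1
    exact (mem_support_iff.1 hs) h1
  · intro t ht hts
    rw [Polynomial.coeff_C_mul_X_pow, if_neg]
    intro h2
    apply hts
    have h3 := (Finset.mem_filter.1 ht).2
    ext i
    fin_cases i
    · exact h2.symm
    · simp only [Fin.mk_one]
      omega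
  · intro h2
    exact absurd (Finset.mem_filter.2 ⟨hs, hs1⟩) h2

private theorem exists_iso2 (a : ℚ) :
    ∃ Φ : MvPolynomial (Fin 2) ℚ ≃+* MvPolynomial (Fin 2) ℚ,
      Φ (X 0) = X 0 - C a * X 1 ∧ Φ (X 1) = X 1 := by
  have key : ∀ b : ℚ, ∃ f : MvPolynomial (Fin 2) ℚ →+* MvPolynomial (Fin 2) ℚ,
      (∀ r, f (C r) = C r) ∧ f (X 0) = X 0 - C b * X 1 ∧ f (X 1) = X 1 := by
    intro b
    refine ⟨eval₂Hom C ![X 0 - C b * X 1, X 1], fun r => ?_, ?_, ?_⟩
    · rw [coe_eval₂Hom, eval₂_C]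
    · rw [coe_eval₂Hom, eval₂_X]
      rfl
    · rw [coe_eval₂Hom, eval₂_X]
      rfl
  have key2 : ∀ (b : ℚ) (f g : MvPolynomial (Fin 2) ℚ →+* MvPolynomial (Fin 2) ℚ),
      (∀ r, f (C r) = C r) → f (X 0) = X 0 - C b * X 1 → f (X 1) = X 1 →
      (∀ r, g (C r) = C r) → g (X 0) = X 0 - C (-b) * X 1 → g (X 1) = X 1 →
      f.comp g = RingHom.id _ := by
    intro b f g hfC hf0 hf1 hgC hg0 hg1
    refine MvPolynomial.ringHom_ext ?_ ?_
    · intro r
      rw [RingHom.comp_apply, hgC, hfC]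
      rfl
    · intro i
      fin_cases i
      · change f (g (X 0)) = X 0
        rw [hg0, map_sub, map_mul, hfC, hf0, hf1, C_neg]
        ring
      · change f (g (X 1)) = X 1
        rw [hg1, hf1]
  obtain ⟨f, hfC, hf0, hf1⟩ := key a
  obtain ⟨g, hgC, hg0, hg1⟩ := key (-a)
  exact ⟨RingEquiv.ofRingHom f g (key2 a f g hfC hf0 hf1 hgC hg0 hg1)
    (key2 (-a) g f hgC hg0 hg1 hfC (by rw [hf0, neg_neg]) hf1), hf0, hf1⟩

private theorem irr_shf (c : ℕ) {G : P2} (hG : Irreducible (map (Int.castRingHom ℚ) G)) :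
    Irreducible (map (Int.castRingHom ℚ) (shf c G)) := by
  obtain ⟨Φ, h0, h1⟩ := exists_iso2 (c : ℚ)
  have h2 : map (Int.castRingHom ℚ) (shf c G) = Φ (map (Int.castRingHom ℚ) G) := by
    have h3 : map (Int.castRingHom ℚ) G = vl G (X 0 : MvPolynomial (Fin 2) ℚ) (X 1) := by
      conv_lhs => rw [← vl_self G]
      rw [vl_map, map_X, map_X]
    have h4 : (Φ : MvPolynomial (Fin 2) ℚ →+* MvPolynomial (Fin 2) ℚ)
        (vl G (X 0 : MvPolynomial (Fin 2) ℚ) (X 1)) =
        vl G (Φ (X 0 : MvPolynomial (Fin 2) ℚ)) (Φ (X 1)) := vl_map _ _ _ _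
    rw [h3]
    refine Eq.trans ?_ h4.symm
    rw [h0, h1]
    unfold shf
    rw [vl_map, map_sub, map_mul, map_X, map_X, map_C]
    simp
  rw [h2]
  exact (MulEquiv.irreducible_iff Φ).2 hG

theorem exists_shf {G : P2} (hG : Irreducible (map (Int.castRingHom ℚ) G)) :
    ∃ c : ℕ, 1 ≤ (shf c G).totalDegree ∧
      coeff (Finsupp.single 1 (shf c G).totalDegree) (shf c G) ≠ 0 ∧
      Irreducible (map (Int.castRingHom ℚ) (shf c G)) := by
  have hn := deg_pos hG
  have hG0 : G ≠ 0 := by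
    rintro rfl
    rw [totalDegree_zero] at hn
    omega
  obtain ⟨c, hc⟩ : ∃ c : ℕ, (∑ t ∈ G.support.filter (fun t : Fin 2 →₀ ℕ => t 0 + t 1 = G.totalDegree),
        Polynomial.C (coeff t G) * Polynomial.X ^ t 0 : Polynomial ℤ).eval (-(c : ℤ)) ≠ 0 := by
    by_contra hcon
    push Not at hcon
    apply top_ne hG0
    apply Polynomial.eq_zero_of_infinite_isRoot
    refine Set.Infinite.mono ?_ (Set.infinite_range_of_injective
      (f := fun c : ℕ => -(c : ℤ)) ?_)
    · rintro _ ⟨c, rfl⟩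
      exact hcon c
    · intro a b hab
      simpa using hab
  rw [← coeff_shf] at hc
  have hd : (shf c G).totalDegree = G.totalDegree := by
    refine le_antisymm (deg_shf c G) ?_
    have h1 := deg_supp (mem_support_iff.2 hc)
    simpa using h1
  refine ⟨c, ?_, ?_, irr_shf c hG⟩
  · rw [hd]
    exact hn
  · rw [hd]
    exact hc

end Pool.Agent.H98.AL
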